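import Pool.Agent.L7h62.HT.Stm
import Pool.Agent.W292.FM.Cyclo

set_option autoImplicit false

/-!
# The cyclotomic fields of `ℓ`-power level over `ℚ_ℓ`
-/

namespace Pool.Agent.L7h62.HT

open Pool.Agent.W292.FM Polynomial

variable (ℓ : ℕ) [hℓ : Fact ℓ.Prime]

variable {ℓ} in
/-- value at `z - 1` of a polynomial of degree `< φ` over `ℚ_ℓ` -/
theorem coeff_norm_le {z : PadicAlgCl ℓ} {n : ℕ} (hz : IsPrimitiveRoot z (ℓ ^ (n + 1)))
    (g : ℚ_[ℓ][X]) (hg : g.natDegree < Nat.totient (ℓ ^ (n + 1))) {i : ℕ}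
    (hi : i < Nat.totient (ℓ ^ (n + 1))) : ‖g.coeff i‖ * ‖z - 1‖ ^ i ≤ ‖aeval (z - 1) g‖ := by
  have h1 := norm_term_le hz (fun j => g.coeff j) hi
  have h2 : aeval (z - 1) g = ∑ j ∈ Finset.range (Nat.totient (ℓ ^ (n + 1))),
      algebraMap ℚ_[ℓ] (PadicAlgCl ℓ) (g.coeff j) * (z - 1) ^ j := by
    rw [aeval_eq_sum_range' hg]
    refine Finset.sum_congr rfl fun j _ => ?_
    rw [Algebra.smul_def]
  rw [h2]
  refine le_trans (le_of_eq ?_) h1
  rw [norm_mul, norm_pow, norm_algebraMap']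

variable {ℓ} in
theorem minpoly_zeta {z : PadicAlgCl ℓ} {n : ℕ} (hz : IsPrimitiveRoot z (ℓ ^ (n + 1))) :
    minpoly ℚ_[ℓ] z = cyclotomic (ℓ ^ (n + 1)) ℚ_[ℓ] := by
  have hpos : 0 < ℓ ^ (n + 1) := pow_pos hℓ.out.pos _
  have hint : IsIntegral ℚ_[ℓ] z := Algebra.IsIntegral.isIntegral z
  have hroot : aeval z (cyclotomic (ℓ ^ (n + 1)) ℚ_[ℓ]) = 0 := by
    rw [aeval_def, eval₂_eq_eval_map, map_cyclotomic]
    exact hz.isRoot_cyclotomic hpos
  have hdvd := minpoly.dvd ℚ_[ℓ] z hroot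
  have hm := minpoly.monic hint
  have hφ : 0 < Nat.totient (ℓ ^ (n + 1)) := Nat.totient_pos.2 hpos
  have hdeg : Nat.totient (ℓ ^ (n + 1)) ≤ (minpoly ℚ_[ℓ] z).natDegree := by
    by_contra hlt
    push Not at hlt
    set d := (minpoly ℚ_[ℓ] z).natDegree with hd
    set g : ℚ_[ℓ][X] := (minpoly ℚ_[ℓ] z).comp (X + C 1) with hg
    have hgd : g.natDegree = d := by
      rw [hg, natDegree_comp, natDegree_X_add_C, mul_one]
    have hgm : g.Monic := hm.comp_X_add_C 1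
    have h1 := coeff_norm_le hz g (by rw [hgd]; exact hlt) (i := d) hlt
    have h2 : aeval (z - 1) g = 0 := by
      rw [hg, aeval_comp]
      simp
    have h3 : g.coeff d = 1 := by
      rw [← hgd]
      exact hgm
    rw [h2, h3, norm_one, one_mul, norm_zero] at h1
    have h4 : 0 < ‖z - 1‖ := by
      rw [norm_pos_iff, sub_ne_zero]
      rintro rfl
      have h5 := hz.eq_orderOf
      rw [orderOf_one] at h5
      have h6 : 1 < ℓ ^ (n + 1) := Nat.one_lt_pow (by omega) hℓ.out.one_lt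
      omega
    exact absurd h1 (not_le.2 (pow_pos h4 d))
  refine (eq_of_monic_of_dvd_of_natDegree_le hm (cyclotomic.monic _ _) hdvd ?_).symm
  rw [natDegree_cyclotomic]
  exact hdeg

theorem s_AUT : S_AUT ℓ := by
  intro s hs ζ hζ a ha
  obtain ⟨n, rfl⟩ := Nat.exists_eq_add_of_le' hs
  refine minpoly.exists_algEquiv_of_root' (Algebra.IsAlgebraic.isAlgebraic ζ) ?_
  rw [minpoly_zeta hζ, aeval_def, eval₂_eq_eval_map, map_cyclotomic]
  exact (hζ.pow_of_coprime a (Nat.Coprime.pow_right _ ha)).isRoot_cyclotomic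
    (pow_pos hℓ.out.pos _)

theorem s_BALL : S_BALL ℓ := by
  intro s hs ζ hζ z hz hz1
  obtain ⟨n, rfl⟩ := Nat.exists_eq_add_of_le' hs
  have hpos : 0 < ℓ ^ (n + 1) := pow_pos hℓ.out.pos _
  have hint : IsIntegral ℚ_[ℓ] ζ := Algebra.IsIntegral.isIntegral ζ
  have hφ : 0 < Nat.totient (ℓ ^ (n + 1)) := Nat.totient_pos.2 hpos
  have hℓ0 : (0 : ℝ) < ℓ := by exact_mod_cast hℓ.out.pos
  -- a polynomial expression
  obtain ⟨f, hf⟩ : ∃ f : ℚ_[ℓ][X], aeval ζ f = z := by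
    have h1 : z ∈ (IntermediateField.adjoin ℚ_[ℓ] {ζ}).toSubalgebra := hz
    rw [IntermediateField.adjoin_simple_toSubalgebra_of_isAlgebraic hint.isAlgebraic,
      Algebra.adjoin_singleton_eq_range_aeval] at h1
    exact h1
  set Φ : ℚ_[ℓ][X] := minpoly ℚ_[ℓ] ζ with hΦ
  have hΦm : Φ.Monic := minpoly.monic hint
  have hΦd : Φ.natDegree = Nat.totient (ℓ ^ (n + 1)) := by
    rw [hΦ, minpoly_zeta hζ, natDegree_cyclotomic]
  set r : ℚ_[ℓ][X] := f %ₘ Φ with hr
  have hrd : r.natDegree < Nat.totient (ℓ ^ (n + 1)) := by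
    rw [← hΦd]
    apply natDegree_modByMonic_lt f hΦm
    intro h1
    rw [h1, natDegree_one] at hΦd
    omega
  have hrz : aeval ζ r = z := by
    have h1 := modByMonic_add_div f Φ
    have h2 := congrArg (aeval ζ) h1
    rw [map_add, map_mul, hf, hΦ, minpoly.aeval, zero_mul, add_zero] at h2
    exact h2
  set g : ℚ_[ℓ][X] := r.comp (X + C 1) with hg
  have hgd : g.natDegree = r.natDegree := by
    rw [hg, natDegree_comp, natDegree_X_add_C, mul_one]
  have hgz : aeval (ζ - 1) g = z := by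
    rw [hg, aeval_comp, ← hrz]
    simp
  have hgc : ∀ i, ‖g.coeff i‖ ≤ 1 := by
    intro i
    by_cases hi : i < Nat.totient (ℓ ^ (n + 1))
    · have h1 : ‖g.coeff i‖ * ‖ζ - 1‖ ^ i ≤ 1 :=
        (coeff_norm_le hζ g (by rw [hgd]; exact hrd) hi).trans (by rw [hgz]; exact hz1)
      have hpow := norm_sub_one_pow_totient hζ
      have h2 : (ℓ : ℝ)⁻¹ < ‖ζ - 1‖ ^ i := by
        rw [← hpow]
        have h3 : ‖ζ - 1‖ < 1 := by
          by_contra hcon
          push Not at hcon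
          have h4 := one_le_pow₀ (n := Nat.totient (ℓ ^ (n + 1))) hcon
          rw [hpow] at h4
          have h5 : (ℓ : ℝ)⁻¹ < 1 := inv_lt_one_of_one_lt₀ (by exact_mod_cast hℓ.out.one_lt)
          linarith
        have h4 : 0 < ‖ζ - 1‖ := by
          by_contra hcon
          have h5 : ‖ζ - 1‖ = 0 := le_antisymm (not_lt.1 hcon) (norm_nonneg _)
          rw [h5, zero_pow hφ.ne'] at hpow
          exact absurd hpow.symm (inv_ne_zero hℓ0.ne')
        exact pow_lt_pow_right_of_lt_one₀ h4 h3 hi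
      have h3 : ‖g.coeff i‖ < ℓ := by
        by_contra hcon
        push Not at hcon
        have h4 : (1 : ℝ) < ‖g.coeff i‖ * ‖ζ - 1‖ ^ i := by
          calc (1 : ℝ) = ℓ * (ℓ : ℝ)⁻¹ := (mul_inv_cancel₀ hℓ0.ne').symm
            _ < ℓ * ‖ζ - 1‖ ^ i := mul_lt_mul_of_pos_left h2 hℓ0
            _ ≤ ‖g.coeff i‖ * ‖ζ - 1‖ ^ i := mul_le_mul_of_nonneg_right hcon (by positivity)
        linarith
      have h4 := (Padic.norm_le_pow_iff_norm_lt_pow_add_one (g.coeff i) 0).2 (by simpa using h3)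
      simpa using h4
    · rw [coeff_eq_zero_of_natDegree_lt (by rw [hgd]; omega), norm_zero]
      exact zero_le_one
  -- the integral polynomial
  let cz : ℕ → ℤ_[ℓ] := fun i => ⟨g.coeff i, hgc i⟩
  set G : ℤ_[ℓ][X] := ∑ i ∈ Finset.range (Nat.totient (ℓ ^ (n + 1))),
    C (cz i) * (X - C 1) ^ i with hG
  have hGz : eval₂ (algebraMap ℤ_[ℓ] (PadicAlgCl ℓ)) ζ G = z := by
    rw [hG, eval₂_finsetSum, ← hgz, aeval_eq_sum_range' (by rw [hgd]; exact hrd)]
    refine Finset.sum_congr rfl fun i _ => ?_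
    rw [eval₂_mul, eval₂_C, eval₂_pow, eval₂_sub, eval₂_X, eval₂_C, map_one, Algebra.smul_def]
    rfl
  have hGd : G.natDegree < ℓ ^ (n + 1) := by
    have h1 : G.natDegree ≤ Nat.totient (ℓ ^ (n + 1)) - 1 := by
      rw [hG]
      apply natDegree_sum_le_of_forall_le
      intro i hi
      rw [Finset.mem_range] at hi
      refine (natDegree_C_mul_le _ _).trans ?_
      refine (natDegree_pow_le).trans ?_
      rw [natDegree_X_sub_C, mul_one]
      omega
    have h2 := Nat.totient_le (ℓ ^ (n + 1))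
    omega
  refine ⟨fun i => G.coeff i, ?_⟩
  rw [← hGz, eval₂_eq_sum_range' _ hGd]
  refine Finset.sum_congr rfl fun i _ => ?_
  rw [Algebra.smul_def]
  rfl

end Pool.Agent.L7h62.HT
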