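import Pool.Agent.L7h62.HT.Trf

set_option autoImplicit false
set_option linter.unusedSectionVars false

/-!
# Semisimplicity from Hodge–Tate weights and Frobenius polynomials
-/

namespace Pool.Agent.L7h62.HT

open NumberField IsDedekindDomain Pool.Agent.W569.FM Pool.Agent.W571.FM Pool.Agent.Y115.R
open Pool.Agent.Y115.T Pool.Agent.Y115.Chi Pool.Agent.Y115.M Pool.Agent.W292.FM Polynomial Module
open Matrix

variable {F : Type} [Field F] [NumberField F] {E : Type} [Field E] [NumberField E]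
variable (ℓ : ℕ) [hℓ : Fact ℓ.Prime] {K : Type} [NormedField K]
  [NormedAlgebra ℚ_[ℓ] K] [FiniteDimensional ℚ_[ℓ] K]

/-- **Semisimplicity** -/
theorem compl_of2 (hS : S_SUB) (hT0 : S_T0F ℓ)
    {n : ℕ} (ρ : GF F →* GL (Fin n) K) (hρ : Continuous ρ) (w : ℤ) (τ : E →+* K)
    (ι : E →+* ℂ) (T : Set ℕ) (hT3 : 3 ≤ T.encard) (hT : ∀ p ∈ T, p.Prime ∧ p ≠ ℓ ∧ Unram F p)
    (P : HeightOneSpectrum (𝓞 F) → E[X])
    (hgood : ∀ p ∈ T, ∀ v : HeightOneSpectrum (𝓞 F), (p : 𝓞 F) ∈ v.asIdeal → ∀ Q : Ideal (OO F),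
      Q.IsPrime → cm Q = v.asIdeal → (∀ g, InInertia Q g → ρ g = 1) ∧
        ∀ g, FrobAt (Ideal.absNorm v.asIdeal) Q g →
          ((ρ g⁻¹ : GL (Fin n) K) : Matrix (Fin n) (Fin n) K).charpoly = (P v).map τ)
    (hpure : ∀ p ∈ T, ∀ v : HeightOneSpectrum (𝓞 F), (p : 𝓞 F) ∈ v.asIdeal →
      ∀ a ∈ ((P v).map ι).roots, ‖a‖ ^ 2 = (Ideal.absNorm v.asIdeal : ℝ) ^ w)
    (J : Matrix (Fin n) (Fin n) K) (hJ : J.det ≠ 0) (hsym : Jᵀ = J ∨ Jᵀ = -J)
    (hpol : ∀ g, ((ρ g : GL (Fin n) K) : Matrix (Fin n) (Fin n) K)ᵀ * J *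
      ((ρ g : GL (Fin n) K) : Matrix (Fin n) (Fin n) K) =
        (algebraMap ℚ_[ℓ] K (((chi F ℓ g : ℤ_[ℓ]ˣ) : ℤ_[ℓ]) : ℚ_[ℓ])) ^ (-w) • J)
    (M : (F →+* PadicAlgCl ℓ) → (K →ₐ[ℚ_[ℓ]] ℂ_[ℓ]) → Multiset ℤ)
    (hM : ∀ (e : AlgebraicClosure F →+* PadicAlgCl ℓ) (c : K →ₐ[ℚ_[ℓ]] ℂ_[ℓ]),
      HTat ℓ ρ e c (M (e.comp (algebraMap F (AlgebraicClosure F))) c))
    (hrel : ∀ k, 0 < k → 2 * k ≤ n →
      (∃ p ∈ T, ¬ IsoR P ι w p k) ∨ ∃ c, ¬ IsoType ℓ (fun t => M t c) w k)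
    (W : Submodule K (Fin n → K))
    (hW : ∀ g, ∀ x ∈ W, ((ρ g : GL (Fin n) K) : Matrix (Fin n) (Fin n) K) *ᵥ x ∈ W) :
    ∃ W' : Submodule K (Fin n → K),
      (∀ g, ∀ x ∈ W', ((ρ g : GL (Fin n) K) : Matrix (Fin n) (Fin n) K) *ᵥ x ∈ W') ∧
        IsCompl W W' := by
  have hcompl : CompleteSpace K := FiniteDimensional.complete ℚ_[ℓ] K
  have hultra : IsUltrametricDist K := IsUltrametricDist.of_normedAlgebra ℚ_[ℓ]
  have hchar : CharZero K := charZero_of_injective_algebraMap (algebraMap ℚ_[ℓ] K).injective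
  set b : LinearMap.BilinForm K (Fin n → K) := Matrix.toBilin' J with hb
  have hbapp : ∀ x y, b x y = x ⬝ᵥ J *ᵥ y := fun x y => Matrix.toBilin'_apply' J x y
  have hnd : b.Nondegenerate := LinearMap.BilinForm.nondegenerate_toBilin'_of_det_ne_zero' J hJ
  have hnd' : ∀ x, (∀ y, b x y = 0) → x = 0 := hnd.1
  have hswap : ∀ x y, b y x = b x y ∨ b y x = - b x y := by
    intro x y
    have h1 : b y x = x ⬝ᵥ Jᵀ *ᵥ y := by
      rw [hbapp, Matrix.dotProduct_mulVec x, Matrix.vecMul_transpose, dotProduct_comm]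
    rcases hsym with h | h
    · left
      rw [h1, h, hbapp]
    · right
      rw [h1, h, hbapp, neg_mulVec, dotProduct_neg]
  have hrefl : b.IsRefl := by
    intro x y h
    rcases hswap x y with h1 | h1
    · rw [h1, h]
    · rw [h1, h, neg_zero]
  have hmul : ∀ g x y, b (act ρ g x) (act ρ g y) =
      (algebraMap ℚ_[ℓ] K (((chi F ℓ g : ℤ_[ℓ]ˣ) : ℤ_[ℓ]) : ℚ_[ℓ])) ^ (-w) * b x y := by
    intro g x y
    rw [hbapp, hbapp, act_apply, act_apply, ← smul_eq_mul, ← dotProduct_smul, ← smul_mulVec,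
      ← hpol g, ← Matrix.mulVec_mulVec, ← Matrix.mulVec_mulVec]
    rw [Matrix.dotProduct_mulVec x, Matrix.vecMul_transpose]
  have hstab : ∀ g, ∀ x ∈ b.orthogonal W,
      ((ρ g : GL (Fin n) K) : Matrix (Fin n) (Fin n) K) *ᵥ x ∈ b.orthogonal W := by
    intro g x hx
    rw [LinearMap.BilinForm.mem_orthogonal_iff] at hx ⊢
    intro y hy
    have h1 : act ρ g⁻¹ y ∈ W := hW g⁻¹ y hy
    have h2 := hmul g (act ρ g⁻¹ y) x
    have h3 : act ρ g (act ρ g⁻¹ y) = y := by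
      have h4 := act_mul ρ g g⁻¹
      rw [mul_inv_cancel, act_one] at h4
      have h5 := congrArg (fun L : Module.End K (Fin n → K) => L y) h4
      exact h5.symm
    rw [h3, hx _ h1, mul_zero] at h2
    exact h2
  refine ⟨b.orthogonal W, hstab, ?_⟩
  rw [LinearMap.BilinForm.isCompl_orthogonal_iff_disjoint hrefl, disjoint_iff]
  by_contra hcon
  set U : Submodule K (Fin n → K) := W ⊓ b.orthogonal W with hU
  have hUst : ∀ g, U ≤ U.comap (act ρ g) := by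
    intro g x hx
    exact ⟨hW g x hx.1, hstab g x hx.2⟩
  have hiso : ∀ x ∈ U, ∀ y ∈ U, b x y = 0 := fun x hx y hy => hy.2 x hx.1
  have hk0 : 0 < finrank K U := by
    rw [Nat.pos_iff_ne_zero]
    intro h
    exact hcon (Submodule.finrank_eq_zero.1 h)
  have h2k : 2 * finrank K U ≤ n := by
    have h1 : U ≤ b.orthogonal U := fun x hx y hy => hiso y hy x hx
    have h2 := Submodule.finrank_mono h1
    rw [LinearMap.BilinForm.finrank_orthogonal hnd, finrank_fin_fun] at h2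
    have h3 : finrank K U ≤ n := by
      have := Submodule.finrank_le U
      rwa [finrank_fin_fun] at this
    omega
  rcases hrel _ hk0 h2k with ⟨p, hp, hno⟩ | ⟨c, hno⟩
  · obtain ⟨A, hA, hprod⟩ := exists_A ℓ ρ hρ w τ ι T hT3 hT P hgood hpure U hUst
    exact hno ⟨A, fun v hv => ⟨(hA p hp v hv).1, (hA p hp v hv).2.2 b hnd' hmul hiso⟩, hprod p hp⟩
  · obtain ⟨N, a, hN, ha, hθ⟩ := theta_pow ℓ ρ hρ w τ ι T hT3 hT P hgood hpure U hUst
    exact hno (iso_type ℓ hS hT0 ρ c (fun t => M t c) (fun e => hM e c) U hUst w N a hN ha hθ J hJ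
      hpol fun x hx y hy => by rw [← hbapp]; exact hiso x hx y hy)

/-- odd size, odd weight, odd degree -/
theorem not_isoType_odd (M : (F →+* PadicAlgCl ℓ) → Multiset ℤ) {w : ℤ} {k : ℕ} (hw : Odd w)
    (hk : Odd k) (hF : Odd (finrank ℚ F)) : ¬ IsoType ℓ M w k := by
  rintro ⟨H, -, h⟩
  have h1 : Odd (w * k * finrank ℚ F) := by
    have hk' : Odd (k : ℤ) := by exact_mod_cast hk
    have hF' : Odd (finrank ℚ F : ℤ) := by exact_mod_cast hF
    exact (hw.mul hk').mul hF'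
  rw [← h] at h1
  exact (Int.not_odd_iff_even.2 (even_two_mul _)) h1

/-- distinct weights over `ℚ` -/
theorem not_isoType_nodup (M : (F →+* PadicAlgCl ℓ) → Multiset ℤ) {w : ℤ} {k : ℕ}
    (hF : finrank ℚ F = 1) (hM : ∀ τ, (M τ).Nodup) (hk : 0 < k) (hk2 : k ≤ 2) :
    ¬ IsoType ℓ M w k := by
  classical
  rintro ⟨H, hH, h⟩
  have hcardF : Fintype.card (F →+* PadicAlgCl ℓ) = 1 := by
    rw [NumberField.Embeddings.card, hF]
  obtain ⟨τ, hτ⟩ := Fintype.card_eq_one_iff.1 hcardF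
  have huniq : Unique (F →+* PadicAlgCl ℓ) := ⟨⟨τ⟩, hτ⟩
  have hsum : ∑ t, (H t).sum = (H τ).sum := by
    rw [Fintype.sum_eq_single τ fun t ht => absurd (hτ t) ht]
  rw [hsum, hF] at h
  obtain ⟨h1, h2⟩ := hH τ
  have h3 : (H τ + (H τ).map fun h => w - h).Nodup := Multiset.nodup_of_le h2 (hM τ)
  rw [Multiset.nodup_add] at h3
  have h4 := h3.2.2
  have hkk : k = 1 ∨ k = 2 := by omega
  rcases hkk with rfl | rfl
  · obtain ⟨x, hx⟩ := Multiset.card_eq_one.1 h1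
    rw [hx] at h4 h
    rw [Multiset.sum_singleton] at h
    rw [Multiset.map_singleton, Multiset.disjoint_singleton] at h4
    apply h4
    rw [Multiset.mem_singleton]
    push_cast at h
    linarith
  · obtain ⟨x, y, hx⟩ := Multiset.card_eq_two.1 h1
    rw [hx] at h4 h
    have h5 : (({x, y} : Multiset ℤ)).sum = x + y := by simp
    rw [h5] at h
    rw [Multiset.disjoint_left] at h4
    apply h4 (a := x) (by simp)
    rw [Multiset.mem_map]
    refine ⟨y, by simp, ?_⟩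
    push_cast at h
    linarith

end Pool.Agent.L7h62.HT
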