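import Pool.Agent.L7h62.HT.T0
import Pool.Agent.L7h37.HT.Tr

set_option autoImplicit false

/-!
# An element with cyclotomic character close to `1`, not a root of unity
-/

namespace Pool.Agent.L7h62.HT

open Pool.Agent.W292.FM Pool.Agent.Y115.Lg

variable (ℓ : ℕ) [hℓ : Fact ℓ.Prime]

theorem s_GEN (hA : S_AUT ℓ) : S_GEN ℓ := by
  obtain ⟨ζ, hζ⟩ := exists_prim ℓ 4
  have hl1 : 1 < ℓ := hℓ.out.one_lt
  have hl0 : (0 : ℝ) < ℓ := by exact_mod_cast hℓ.out.pos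
  have hcop : (1 + ℓ ^ 3 * 1).Coprime ℓ := by
    have h1 : (1 + ℓ * (ℓ ^ 2)).Coprime ℓ := by simp
    have h2 : 1 + ℓ ^ 3 * 1 = 1 + ℓ * (ℓ ^ 2) := by ring
    rwa [h2]
  obtain ⟨γ, hγ⟩ := hA 4 (by norm_num) ζ hζ _ hcop
  have hsmall := Pool.Agent.L7h37.HT.small_of_exp ℓ (by norm_num) hζ γ 1 hγ
  refine ⟨γ, hsmall, fun m hm h => ?_⟩
  have hu : ‖chiQ ℓ γ - 1‖ * (ℓ : ℝ) ^ 3 ≤ 1 := by
    have h1 : (ℓ : ℝ) ^ (-3 : ℤ) * (ℓ : ℝ) ^ 3 = 1 := by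
      rw [← zpow_natCast, ← zpow_add₀ hl0.ne']
      norm_num
    rw [← h1]
    exact mul_le_mul_of_nonneg_right hsmall (by positivity)
  have hpow : ∃ k : ℕ, 0 < k ∧ chiQ ℓ γ ^ k = 1 := by
    obtain ⟨k, rfl | rfl⟩ := m.eq_nat_or_neg
    · exact ⟨k, Nat.pos_of_ne_zero fun h0 => hm (by rw [h0]; rfl), by rwa [zpow_natCast] at h⟩
    · refine ⟨k, Nat.pos_of_ne_zero fun h0 => hm (by rw [h0]; rfl), ?_⟩
      rw [zpow_neg, zpow_natCast, inv_eq_one] at h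
      exact h
  obtain ⟨k, hk, hk1⟩ := hpow
  have h2 := (lg_pow ℓ hu k).2
  rw [hk1, lg_one] at h2
  have h3 : lg ℓ (chiQ ℓ γ) = 0 :=
    (mul_eq_zero.1 h2.symm).resolve_left (Nat.cast_ne_zero.2 hk.ne')
  have h4 : chiQ ℓ γ = 1 := lg_eq_zero ℓ hu h3
  have h5 : chiL ℓ γ = 1 := by
    apply Units.ext
    apply Subtype.ext
    exact h4
  have h6 := chiL_root ℓ γ hζ.pow_eq_one
  have h0 : chiL ℓ (1 : GLo ℓ) = 1 := map_one _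
  have h7 := chiL_root ℓ (1 : GLo ℓ) hζ.pow_eq_one
  rw [AlgEquiv.one_apply, h0] at h7
  rw [h5, ← h7, hγ] at h6
  have hζ0 : ζ ≠ 0 := hζ.ne_zero (pow_ne_zero _ hℓ.out.ne_zero)
  have h8 : ζ ^ (ℓ ^ 3) = 1 := by
    rw [pow_add, pow_one, mul_one] at h6
    exact mul_left_cancel₀ hζ0 (by rw [h6, mul_one])
  have h9 := hζ.dvd_of_pow_eq_one _ h8
  have h10 := (Nat.pow_dvd_pow_iff_le_right hl1).1 h9
  omega

end Pool.Agent.L7h62.HT
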