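import Pool.Agent.L7h62.HT.Stm

set_option autoImplicit false
set_option linter.unusedSectionVars false

/-!
# Local and global Galois elements
-/

namespace Pool.Agent.L7h62.HT

open Pool.Agent.W292.FM Pool.Agent.W569.FM Pool.Agent.Y115.Chi Module Matrix

variable (ℓ : ℕ) [hℓ : Fact ℓ.Prime]

theorem charZeroA : CharZero (PadicAlgCl ℓ) :=
  charZero_of_injective_algebraMap (algebraMap ℚ_[ℓ] (PadicAlgCl ℓ)).injective

theorem chi_root {F : Type} [Field F] [CharZero F] (σ : GF F) {n : ℕ} {t : AlgebraicClosure F}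
    (ht : t ^ (ℓ ^ n) = 1) :
    σ t = t ^ (PadicInt.toZModPow n ((chi F ℓ σ : ℤ_[ℓ]ˣ) : ℤ_[ℓ])).val := by
  have : CharZero (AlgebraicClosure F) := charZero_of_injective_algebraMap
    (algebraMap F (AlgebraicClosure F)).injective
  exact cyclotomicCharacter.spec ℓ (MulSemiringAction.toRingAut Gal(AlgebraicClosure F/F)
    (AlgebraicClosure F) σ) t ht

theorem chiL_root (g : GLo ℓ) {n : ℕ} {t : PadicAlgCl ℓ} (ht : t ^ (ℓ ^ n) = 1) :
    g t = t ^ (PadicInt.toZModPow n ((chiL ℓ g : ℤ_[ℓ]ˣ) : ℤ_[ℓ])).val :=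
  cyclotomicCharacter.spec ℓ (MulSemiringAction.toRingAut Gal(PadicAlgCl ℓ/ℚ_[ℓ])
    (PadicAlgCl ℓ) g) t ht

/-- compatible elements have the same cyclotomic character -/
theorem chi_compat {F : Type} [Field F] [CharZero F] (e : AlgebraicClosure F →+* PadicAlgCl ℓ)
    (g : GLo ℓ) (σ : GF F) (h : ∀ x, g (e x) = e (σ x)) : chiL ℓ g = chi F ℓ σ := by
  have : CharZero (AlgebraicClosure F) := charZero_of_injective_algebraMap
    (algebraMap F (AlgebraicClosure F)).injective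
  apply Units.ext
  refine PadicInt.ext_of_toZModPow.mp fun n => ?_
  have hpos : 0 < ℓ ^ n := pow_pos hℓ.out.pos n
  have : NeZero (ℓ ^ n) := ⟨hpos.ne'⟩
  obtain ⟨t, ht⟩ := HasEnoughRootsOfUnity.exists_primitiveRoot (AlgebraicClosure F) (ℓ ^ n)
  have h1 := chi_root ℓ σ ht.pow_eq_one
  have h2 : e t ^ (ℓ ^ n) = 1 := by rw [← map_pow, ht.pow_eq_one, map_one]
  have h3 := chiL_root ℓ g h2
  rw [h, h1, map_pow] at h3
  have h4 : IsPrimitiveRoot (e t) (ℓ ^ n) := ht.map_of_injective e.injective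
  have h5 := h4.pow_inj (ZMod.val_lt _) (ZMod.val_lt _) h3
  exact (ZMod.val_injective _ h5).symm

theorem chiQ_compat {F : Type} [Field F] [CharZero F] (e : AlgebraicClosure F →+* PadicAlgCl ℓ)
    (g : GLo ℓ) (σ : GF F) (h : ∀ x, g (e x) = e (σ x)) :
    chiQ ℓ g = (((chi F ℓ σ : ℤ_[ℓ]ˣ) : ℤ_[ℓ]) : ℚ_[ℓ]) := by
  unfold chiQ
  rw [chi_compat ℓ e g σ h]

/-- a finite index criterion -/
theorem finiteIndex_of_map {G X : Type*} [Group G] [Finite X] (H : Subgroup G) (f : G → X)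
    (hf : ∀ a b, f a = f b → a⁻¹ * b ∈ H) : H.FiniteIndex := by
  have h1 : Finite (G ⧸ H) := by
    refine Finite.of_injective (fun q : G ⧸ H => f q.out) fun a b hab => ?_
    rw [← QuotientGroup.out_eq' a, ← QuotientGroup.out_eq' b, QuotientGroup.eq]
    exact hf _ _ hab
  exact Subgroup.finiteIndex_of_finite_quotient

/-- the elements that fix a subfield -/
def fixF {F : Type} [Field F] (τ : F →+* PadicAlgCl ℓ) : Subgroup (GLo ℓ) where
  carrier := {g | ∀ x, g (τ x) = τ x}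
  one_mem' := fun _ => rfl
  mul_mem' := by
    intro a b ha hb x
    show a (b (τ x)) = τ x
    rw [hb, ha]
  inv_mem' := by
    intro a ha x
    show a.symm (τ x) = τ x
    rw [AlgEquiv.symm_apply_eq]
    exact (ha x).symm

theorem finiteIndex_fixF {F : Type} [Field F] [NumberField F] (τ : F →+* PadicAlgCl ℓ) :
    (fixF ℓ τ).FiniteIndex := by
  have := charZeroA ℓ
  have : Finite (F →+* PadicAlgCl ℓ) := inferInstance
  refine finiteIndex_of_map (fixF ℓ τ) (fun g => ((g : PadicAlgCl ℓ ≃+* PadicAlgCl ℓ) :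
    PadicAlgCl ℓ →+* PadicAlgCl ℓ).comp τ) fun a b hab x => ?_
  have h1 : a (τ x) = b (τ x) := DFunLike.congr_fun hab x
  show a.symm (b (τ x)) = τ x
  rw [← h1, AlgEquiv.symm_apply_apply]

section coeff

variable {K : Type} [Field K] [Algebra ℚ_[ℓ] K]

/-- the elements that fix the image of an embedding of the coefficients -/
def fixC (c : K →ₐ[ℚ_[ℓ]] ℂ_[ℓ]) : Subgroup (GLo ℓ) where
  carrier := {g | ∀ z, cpMap ℓ g (c z) = c z}
  one_mem' := fun z => cpMap_one ℓ (c z)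
  mul_mem' := by
    intro a b ha hb z
    show cpMap ℓ (a * b) (c z) = c z
    rw [cpMap_mul, hb, ha]
  inv_mem' := by
    intro a ha z
    show cpMap ℓ a⁻¹ (c z) = c z
    conv_lhs => rw [← ha z]
    rw [cpMap_inv_apply]

theorem finiteIndex_fixC [FiniteDimensional ℚ_[ℓ] K] (c : K →ₐ[ℚ_[ℓ]] ℂ_[ℓ]) :
    (fixC ℓ c).FiniteIndex := by
  have : Finite (K →ₐ[ℚ_[ℓ]] ℂ_[ℓ]) := inferInstance
  refine finiteIndex_of_map (fixC ℓ c) (fun g => (⟨((cpMap ℓ g : ℂ_[ℓ] ≃+* ℂ_[ℓ]) :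
    ℂ_[ℓ] →+* ℂ_[ℓ]).comp (c : K →+* ℂ_[ℓ]), fun r => by
      show cpMap ℓ g (c (algebraMap ℚ_[ℓ] K r)) = _
      rw [c.commutes, cpMap_algebraMap]⟩ : K →ₐ[ℚ_[ℓ]] ℂ_[ℓ])) fun a b hab z => ?_
  have h1 : cpMap ℓ a (c z) = cpMap ℓ b (c z) := DFunLike.congr_fun hab z
  show cpMap ℓ (a⁻¹ * b) (c z) = c z
  rw [cpMap_mul, ← h1, cpMap_inv_apply]

end coeff

/-- an element of the local Galois group that fixes `F` restricts to the algebraic closure -/
theorem exists_restrict {F : Type} [Field F] (e : AlgebraicClosure F →+* PadicAlgCl ℓ)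
    {g : GLo ℓ} (hg : ∀ x : F, g (e (algebraMap F _ x)) = e (algebraMap F _ x)) :
    ∃ σ : GF F, ∀ x, g (e x) = e (σ x) := by
  let _ : Algebra F (PadicAlgCl ℓ) := (e.comp (algebraMap F (AlgebraicClosure F))).toAlgebra
  let _ : Algebra (AlgebraicClosure F) (PadicAlgCl ℓ) := e.toAlgebra
  have : IsScalarTower F (AlgebraicClosure F) (PadicAlgCl ℓ) :=
    IsScalarTower.of_algebraMap_eq fun x => rfl
  let g' : PadicAlgCl ℓ ≃ₐ[F] PadicAlgCl ℓ :=
    AlgEquiv.ofRingEquiv (f := (g : PadicAlgCl ℓ ≃+* PadicAlgCl ℓ)) hg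
  refine ⟨g'.restrictNormal (AlgebraicClosure F), fun x => ?_⟩
  exact (AlgEquiv.restrictNormal_commutes g' (AlgebraicClosure F) x).symm

/-- the restriction homomorphism to the absolute Galois group of `ℚ` -/
theorem exists_resQ (e : AlgebraicClosure ℚ →+* PadicAlgCl ℓ) :
    ∃ r : GLo ℓ →* GF ℚ, ∀ g x, g (e x) = e (r g x) := by
  have h1 : ∀ g : GLo ℓ, ∃ σ : GF ℚ, ∀ x, g (e x) = e (σ x) := by
    intro g
    refine exists_restrict ℓ e fun x => ?_
    rw [eq_ratCast, map_ratCast, map_ratCast]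
  choose r hr using h1
  refine ⟨{ toFun := r, map_one' := ?_, map_mul' := ?_ }, hr⟩
  · apply AlgEquiv.ext
    intro x
    apply e.injective
    rw [← hr]
    rfl
  · intro a b
    apply AlgEquiv.ext
    intro x
    apply e.injective
    rw [← hr]
    show a (b (e x)) = e (r a (r b x))
    rw [hr, hr]

/-- Tate's theorem for the elements that fix `F` and the coefficients -/
theorem t0_fix (hT : S_T0F ℓ) {F : Type} [Field F] [NumberField F]
    {K : Type} [Field K] [Algebra ℚ_[ℓ] K] [FiniteDimensional ℚ_[ℓ] K]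
    (e : AlgebraicClosure F →+* PadicAlgCl ℓ) (c : K →ₐ[ℚ_[ℓ]] ℂ_[ℓ]) {m : ℤ} (hm : m ≠ 0)
    (y : ℂ_[ℓ]) (hy : ∀ (g : GLo ℓ) (σ : GF F), (∀ x, g (e x) = e (σ x)) →
      (∀ z, cpMap ℓ g (c z) = c z) → cpMap ℓ g y = chiC ℓ g ^ m * y) : y = 0 := by
  have h1 := finiteIndex_fixF ℓ (e.comp (algebraMap F (AlgebraicClosure F)))
  have h2 := finiteIndex_fixC ℓ c
  refine hT (fixF ℓ (e.comp (algebraMap F (AlgebraicClosure F))) ⊓ fixC ℓ c) inferInstance m hm y
    fun g hg => ?_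
  obtain ⟨σ, hσ⟩ := exists_restrict ℓ e (g := g) hg.1
  exact hy g σ hσ hg.2

end Pool.Agent.L7h62.HT
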