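import Pool.Agent.Y115.Main

set_option autoImplicit false
set_option linter.unusedSectionVars false

/-!
# The transferred character is a power of the cyclotomic character

Variants of `Pool.Agent.Y115.T.place_relation` and `Pool.Agent.Y115.M.exists_A` which keep the
exponent.
-/

namespace Pool.Agent.L7h62.HT

open NumberField IsDedekindDomain Pool.Agent.W569.FM Pool.Agent.W571.FM Pool.Agent.Y115.CQ
open Pool.Agent.Y115.Chi Pool.Agent.Y115.T Pool.Agent.Y115.R Pool.Agent.Y115.M Polynomial Module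

variable {F : Type} [Field F] [NumberField F]

section place

variable {ℓ : ℕ} [hℓ : Fact ℓ.Prime] {E : Type*} [NormedField E] [CompleteSpace E]
  [IsUltrametricDist E] [NormedAlgebra ℚ_[ℓ] E] [CharZero E] [FiniteDimensional ℚ_[ℓ] E]

theorem place_relation2 (ψ : GF F →* Eˣ) (hψ : Continuous ψ) (T : Set ℕ) (hT3 : 3 ≤ T.encard)
    (hT : ∀ p ∈ T, p.Prime ∧ p ≠ ℓ ∧ Unram F p) (d : HeightOneSpectrum (𝓞 F) → Eˣ)
    (hd : ∀ p ∈ T, ∀ v : HeightOneSpectrum (𝓞 F), (p : 𝓞 F) ∈ v.asIdeal → ∀ Q : Ideal (OO F),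
      Q.IsPrime → cm Q = v.asIdeal → (∀ τ, InInertia Q τ → ψ τ = 1) ∧
        ∀ φ, FrobAt (Ideal.absNorm v.asIdeal) Q φ → ψ φ = d v)
    (halg : ∀ p ∈ T, ∀ v : HeightOneSpectrum (𝓞 F), (p : 𝓞 F) ∈ v.asIdeal →
      IsAlgebraic ℚ (d v : E)) :
    ∃ (N : ℕ) (a : ℤ), 0 < N ∧
      (∀ g, MonoidHom.transfer (ψ.comp (cc F)) g ^ N = chiE ℓ E g ^ a) ∧
      ∀ p ∈ T, ∃ (S : Finset (HeightOneSpectrum (𝓞 F))) (M : ℕ), 0 < M ∧
        (∀ v, v ∈ S ↔ (p : 𝓞 F) ∈ v.asIdeal) ∧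
        (∏ v ∈ S, (d v : E)) ^ (M * N) = (p : E) ^ (a * M) ∧
        ∃ f : HeightOneSpectrum (𝓞 F) → ℕ, (∀ v ∈ S, Ideal.absNorm v.asIdeal = p ^ f v) ∧
          ∑ v ∈ S, f v = Module.finrank ℚ F := by
  classical
  set θ : GF ℚ →* Eˣ := MonoidHom.transfer (ψ.comp (cc F)) with hθ
  have hθc : Continuous θ := continuous_transfer (isOpen_core F) _ (hψ.comp (continuous_cc F))
  obtain ⟨t, htT, ht3⟩ := Set.exists_subset_encard_eq hT3
  have htfin : t.Finite := Set.finite_of_encard_eq_coe ht3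
  have htc : Nat.card t = 3 := by
    have h1 : Nat.card t = t.ncard := Nat.card_coe_set_eq t
    have h2 : (t.ncard : ℕ∞) = 3 := by rw [htfin.cast_ncard_eq]; exact ht3
    rw [h1]
    exact_mod_cast h2
  have hfin : Finite t := htfin
  obtain ⟨e⟩ : Nonempty (Fin 3 ≃ t) := by
    rw [← htc]
    exact ⟨(Finite.equivFin t).symm⟩
  set l : Fin 3 → ℕ := fun i => (e i : ℕ) with hl
  have hlT : ∀ i, l i ∈ T := fun i => htT (e i).2
  have hchoose : ∀ p : ℕ, p.Prime → ∃ (P : Ideal (OO ℚ)) (σ : GF ℚ), P.IsMaximal ∧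
    (p : OO ℚ) ∈ P ∧ FrobAt p P σ := fun p hp => exists_frobQ hp
  choose P σ hP hpP hσ using hchoose
  have key := char_main θ hθc l (fun i => (hT _ (hlT i)).1)
    (fun i j hij => e.injective (Subtype.ext hij)) (fun i => (hT _ (hlT i)).2.1)
    (fun i => P (l i) (hT _ (hlT i)).1) (fun i => (hP _ _).isPrime) (fun i => hpP _ _)
    (fun i => σ (l i) (hT _ (hlT i)).1) (fun i => hσ _ _) (by
      intro i
      obtain ⟨M, S, hM, hS, heq, -⟩ := transfer_frob ψ (hT _ (hlT i)).1 (hP (l i) (hT _ (hlT i)).1)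
        (hpP (l i) (hT _ (hlT i)).1) (hσ (l i) (hT _ (hlT i)).1) (hT _ (hlT i)).2.2 d
        (hd _ (hlT i))
      have h1 : IsAlgebraic ℚ ((θ (σ (l i) (hT _ (hlT i)).1) : E) ^ M) := by
        rw [← Units.val_pow_eq_pow_val, hθ, heq, Units.val_pow_eq_pow_val]
        apply IsAlgebraic.pow
        rw [Units.coe_prod]
        have h2 : ∀ s : Finset (HeightOneSpectrum (𝓞 F)), (∀ v ∈ s, IsAlgebraic ℚ (d v : E)) →
            IsAlgebraic ℚ (∏ v ∈ s, (d v : E)) := by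
          intro s
          induction s using Finset.induction_on with
          | empty =>
            intro _
            rw [Finset.prod_empty]
            exact isAlgebraic_one
          | insert v s hv ih =>
            intro h
            rw [Finset.prod_insert hv]
            exact (h v (Finset.mem_insert_self v s)).mul
              (ih fun w hw => h w (Finset.mem_insert_of_mem hw))
        exact h2 S fun v hv => halg _ (hlT i) v ((hS v).1 hv)
      exact IsAlgebraic.of_pow hM h1)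
  obtain ⟨N, a, hN, hNa⟩ := key
  refine ⟨N, a, hN, hNa, ?_⟩
  intro p hpT
  obtain ⟨hp, hne, hur⟩ := hT p hpT
  obtain ⟨M, S, hM, hS, heq, hf⟩ := transfer_frob ψ hp (hP p hp) (hpP p hp) (hσ p hp) hur d
    (hd p hpT)
  refine ⟨S, M, hM, hS, ?_, hf⟩
  have h1 : (∏ v ∈ S, d v) ^ (M * N) = (chiE ℓ E (σ p hp) ^ a) ^ M := by
    rw [pow_mul, ← heq, ← pow_mul, mul_comm, pow_mul, ← hNa]
  have h2 : (chiE ℓ E (σ p hp) : E) = (p : E) := by
    rw [coe_chiE, chi_frob (hP p hp).isPrime (not_mem_of_ne hp hne (hP p hp).ne_top (hpP p hp))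
      (hσ p hp)]
    simp
  have h3 := congrArg (fun u : Eˣ => (u : E)) h1
  simp only [Units.val_pow_eq_pow_val, Units.coe_prod, Units.val_zpow_eq_zpow_val] at h3
  rw [h3, h2, zpow_mul, zpow_natCast]

end place

variable {E : Type} [Field E] [NumberField E]
variable (ℓ : ℕ) [hℓ : Fact ℓ.Prime] {K : Type} [NormedField K]
  [NormedAlgebra ℚ_[ℓ] K] [FiniteDimensional ℚ_[ℓ] K]

/-- **The determinant of a stable subspace, transferred to `ℚ`.** -/
theorem theta_pow [CompleteSpace K] [IsUltrametricDist K] [CharZero K]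
    {n : ℕ} (ρ : GF F →* GL (Fin n) K) (hρ : Continuous ρ) (w : ℤ) (τ : E →+* K)
    (ι : E →+* ℂ) (T : Set ℕ) (hT3 : 3 ≤ T.encard) (hT : ∀ p ∈ T, p.Prime ∧ p ≠ ℓ ∧ Unram F p)
    (P : HeightOneSpectrum (𝓞 F) → E[X])
    (hgood : ∀ p ∈ T, ∀ v : HeightOneSpectrum (𝓞 F), (p : 𝓞 F) ∈ v.asIdeal → ∀ Q : Ideal (OO F),
      Q.IsPrime → cm Q = v.asIdeal → (∀ g, InInertia Q g → ρ g = 1) ∧
        ∀ g, FrobAt (Ideal.absNorm v.asIdeal) Q g →
          ((ρ g⁻¹ : GL (Fin n) K) : Matrix (Fin n) (Fin n) K).charpoly = (P v).map τ)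
    (hpure : ∀ p ∈ T, ∀ v : HeightOneSpectrum (𝓞 F), (p : 𝓞 F) ∈ v.asIdeal →
      ∀ a ∈ ((P v).map ι).roots, ‖a‖ ^ 2 = (Ideal.absNorm v.asIdeal : ℝ) ^ w)
    (W : Submodule K (Fin n → K)) (hW : ∀ g, W ≤ W.comap (act ρ g)) :
    ∃ (N : ℕ) (a : ℤ), 0 < N ∧ 2 * a = -(w * finrank K W * finrank ℚ F * N) ∧
      ∀ g, MonoidHom.transfer ((dt ρ W hW).comp (cc F)) g ^ N = chiE ℓ K g ^ a := by
  classical
  obtain ⟨j, hj⟩ := exists_j ℓ K E τ ι
  have hjP : ∀ v, ((P v).map τ).map j = (P v).map ι := by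
    intro v
    rw [Polynomial.map_map]
    congr 1
    exact RingHom.ext hj
  -- a Frobenius element at each place
  have hfr : ∀ v : HeightOneSpectrum (𝓞 F), ∃ (Q : Ideal (OO F)) (σ : GF F), Q.IsMaximal ∧
      cm Q = v.asIdeal ∧ FrobAt (Ideal.absNorm v.asIdeal) Q σ := fun v => frob_cm v
  choose Q₀ σ₀ hQ₀ hQ₀v hσ₀ using hfr
  set ψ : GF F →* Kˣ := dt ρ W hW with hψ
  have hψc : Continuous ψ := continuous_dt ℓ ρ hρ W hW
  set C : HeightOneSpectrum (𝓞 F) → K[X] := fun v => (res ρ W hW (σ₀ v)⁻¹).charpoly with hC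
  set A : HeightOneSpectrum (𝓞 F) → Multiset ℂ := fun v => ((C v).map j).roots with hA
  have hcharV : ∀ p ∈ T, ∀ v : HeightOneSpectrum (𝓞 F), (p : 𝓞 F) ∈ v.asIdeal →
      ((act ρ (σ₀ v)⁻¹).charpoly).map j = (P v).map ι := by
    intro p hp v hv
    have h1 := (hgood p hp v hv (Q₀ v) (hQ₀ v).isPrime (hQ₀v v)).2 (σ₀ v) (hσ₀ v)
    rw [← hjP, ← h1]
    unfold act
    rw [Matrix.charpoly_mulVecLin]
  have hcard : ∀ v, Multiset.card (A v) = finrank K W := by
    intro v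
    have hsplit : ((C v).map j).Splits := IsAlgClosed.splits _
    rw [hA]
    simp only
    rw [← hsplit.natDegree_eq_card_roots, Polynomial.natDegree_map, hC]
    exact LinearMap.charpoly_natDegree _
  have hle : ∀ p ∈ T, ∀ v : HeightOneSpectrum (𝓞 F), (p : 𝓞 F) ∈ v.asIdeal →
      A v ≤ ((P v).map ι).roots := by
    intro p hp v hv
    rw [← hcharV p hp v hv]
    have h1 := Pool.Agent.W522.C.charpoly_eq_mul (act ρ (σ₀ v)⁻¹) W (hW _)
    have h2 : (act ρ (σ₀ v)⁻¹).charpoly.Monic := LinearMap.charpoly_monic _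
    apply Polynomial.roots.le_of_dvd (h2.map j).ne_zero
    exact Polynomial.map_dvd j (Dvd.intro _ h1.symm)
  -- the determinants
  have hprod : ∀ v, (A v).prod = j ((ψ (σ₀ v)⁻¹ : Kˣ) : K) := by
    intro v
    have hsplit : ((C v).map j).Splits := IsAlgClosed.splits _
    have hCm : (C v).Monic := LinearMap.charpoly_monic _
    have hdeg : (C v).natDegree = finrank K W := LinearMap.charpoly_natDegree _
    have h1 : ((ψ (σ₀ v)⁻¹ : Kˣ) : K) = LinearMap.det (res ρ W hW (σ₀ v)⁻¹) := rfl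
    rw [h1, LinearMap.det_eq_sign_charpoly_coeff]
    have h2 : (res ρ W hW (σ₀ v)⁻¹).charpoly = C v := rfl
    rw [h2, map_mul, map_pow, map_neg, map_one, ← coeff_map,
      hsplit.coeff_zero_eq_prod_roots_of_monic (hCm.map j), Polynomial.natDegree_map, hdeg,
      ← mul_assoc, ← pow_add, ← two_mul, pow_mul, neg_one_sq, one_pow, one_mul]
  have hd : ∀ p ∈ T, ∀ v : HeightOneSpectrum (𝓞 F), (p : 𝓞 F) ∈ v.asIdeal → ∀ Q : Ideal (OO F),
      Q.IsPrime → cm Q = v.asIdeal → (∀ g, InInertia Q g → ψ g = 1) ∧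
        ∀ g, FrobAt (Ideal.absNorm v.asIdeal) Q g → ψ g = ψ (σ₀ v) := by
    intro p hp v hv Q hQ hQv
    have hin : ∀ Q : Ideal (OO F), Q.IsPrime → cm Q = v.asIdeal → ∀ g, InInertia Q g →
        ψ g = 1 := by
      intro Q hQ hQv g hg
      exact dt_eq_one ρ W hW ((hgood p hp v hv Q hQ hQv).1 g hg)
    refine ⟨hin Q hQ hQv, fun g hg => ?_⟩
    obtain ⟨h, hh⟩ := exists_smul (Q₀ v) Q (hQ₀ v).isPrime hQ ((hQ₀v v).trans hQv.symm)
    have hq0 : Ideal.absNorm v.asIdeal ≠ 0 := by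
      rw [Ne, Ideal.absNorm_eq_zero_iff]
      exact v.ne_bot
    have h1 : FrobAt (Ideal.absNorm v.asIdeal) (Q₀ v) (h⁻¹ * g * h) := by
      intro x
      have h2 := (hh _).1 (hg (h • x))
      rw [smul_sub, smul_pow', inv_smul_smul, smul_smul, smul_smul] at h2
      exact h2
    have h2 := hin (Q₀ v) (hQ₀ v).isPrime (hQ₀v v) _ (frob_inertia hq0 (hQ₀ v).isPrime (hσ₀ v) h1)
    rw [map_mul, map_mul, map_mul, map_inv, map_inv, mul_comm (ψ h)⁻¹, mul_assoc (ψ g),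
      inv_mul_cancel, mul_one, inv_mul_eq_one] at h2
    exact h2.symm
  have halgroot : ∀ v, ∀ a ∈ ((P v).map ι).roots, IsAlgebraic ℚ a := by
    intro v a ha
    have h1 : (P v) ≠ 0 := by
      intro h
      rw [h, Polynomial.map_zero, roots_zero] at ha
      exact absurd ha (Multiset.notMem_zero a)
    let _ : Algebra E ℂ := ι.toAlgebra
    have h2 : IsAlgebraic E a := ⟨P v, h1, by
      rw [mem_roots'] at ha
      have h3 := ha.2
      rwa [IsRoot, eval_map] at h3⟩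
    have : IsScalarTower ℚ E ℂ := IsScalarTower.of_algebraMap_eq fun x => by simp
    exact IsAlgebraic.restrictScalars ℚ h2
  have hjalg : ∀ x : K, IsAlgebraic ℚ (j x) → IsAlgebraic ℚ x := by
    intro x hx
    exact (isAlgebraic_algHom_iff (RingHom.toRatAlgHom j) j.injective).1 hx
  have halg : ∀ p ∈ T, ∀ v : HeightOneSpectrum (𝓞 F), (p : 𝓞 F) ∈ v.asIdeal →
      IsAlgebraic ℚ (ψ (σ₀ v) : K) := by
    intro p hp v hv
    have h1 : IsAlgebraic ℚ (A v).prod := by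
      apply isAlgebraic_multiset_prod
      intro a ha
      exact halgroot v a (Multiset.mem_of_le (hle p hp v hv) ha)
    rw [hprod v] at h1
    have h2 := hjalg _ h1
    rw [map_inv, Units.val_inv_eq_inv_val] at h2
    exact IsAlgebraic.inv_iff.1 h2
  obtain ⟨N, a, hN, hNa, key⟩ :=
    place_relation2 ψ hψc T hT3 hT (fun v => ψ (σ₀ v)) hd halg
  refine ⟨N, a, hN, ?_, hNa⟩
  obtain ⟨p, hp⟩ : T.Nonempty := by
    rw [Set.nonempty_iff_ne_empty]
    rintro rfl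
    simp at hT3
  obtain ⟨S, M, hM, hS, heq, f, hf, hsum⟩ := key p hp
  have h1 : (∏ v ∈ S, (A v).prod) ^ (M * N) = (p : ℂ) ^ (-(a * M)) := by
    have h2 := congrArg j heq
    rw [map_pow, map_prod, map_zpow₀, map_natCast] at h2
    have h3 : ∏ v ∈ S, (A v).prod = (∏ v ∈ S, j (ψ (σ₀ v) : K))⁻¹ := by
      rw [← Finset.prod_inv_distrib]
      refine Finset.prod_congr rfl fun v _ => ?_
      rw [hprod, map_inv, Units.val_inv_eq_inv_val, map_inv₀]
    rw [h3, inv_pow, h2, zpow_neg]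
  have hnorm : ‖∏ v ∈ S, (A v).prod‖ ^ 2 = (p : ℝ) ^ (w * finrank K W * finrank ℚ F) := by
    have hp0' : (p : ℝ) ≠ 0 := Nat.cast_ne_zero.2 (hT p hp).1.ne_zero
    rw [norm_prod, ← Finset.prod_pow]
    have h2 : ∀ v ∈ S, ‖(A v).prod‖ ^ 2 = ((p : ℝ) ^ (w * finrank K W)) ^ f v := by
      intro v hv
      have hv' := (hS v).1 hv
      rw [norm_multiset_prod (A v) ((Ideal.absNorm v.asIdeal : ℝ) ^ w) fun a ha =>
        hpure p hp v hv' a (Multiset.mem_of_le (hle p hp v hv') ha), hcard, hf v hv]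
      push_cast
      rw [← zpow_natCast, ← zpow_natCast, ← zpow_natCast, ← zpow_mul, ← zpow_mul, ← zpow_mul]
      congr 1
      ring
    rw [Finset.prod_congr rfl h2, Finset.prod_pow_eq_pow_sum, hsum,
      zpow_mul (p : ℝ) (w * finrank K W) (finrank ℚ F), zpow_natCast]
  have hp1 : (1 : ℝ) < (p : ℝ) := by exact_mod_cast (hT p hp).1.one_lt
  have hexp : w * finrank K W * finrank ℚ F * ((M * N : ℕ) : ℤ) = -(a * M) * 2 := by
    have h2 : ‖∏ v ∈ S, (A v).prod‖ ^ (M * N) = (p : ℝ) ^ (-(a * M)) := by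
      rw [← norm_pow, h1, norm_zpow]
      simp
    have h3 : (p : ℝ) ^ (w * finrank K W * finrank ℚ F * ((M * N : ℕ) : ℤ)) =
        (p : ℝ) ^ (-(a * M) * 2) := by
      rw [zpow_mul, ← hnorm, zpow_mul, ← h2, zpow_natCast, ← pow_mul]
      have h4 : (2 : ℤ) = ((2 : ℕ) : ℤ) := rfl
      rw [h4, zpow_natCast, ← pow_mul, mul_comm]
    exact zpow_right_injective₀ (by linarith) hp1.ne' h3
  have hM0 : (M : ℤ) ≠ 0 := by exact_mod_cast hM.ne'
  apply mul_left_cancel₀ hM0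
  push_cast at hexp
  linarith

end Pool.Agent.L7h62.HT
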