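import Pool.Agent.L7h62.HT.Loc

set_option autoImplicit false
set_option linter.unusedSectionVars false

/-!
# The Hodge–Tate weights of a stable subspace
-/

namespace Pool.Agent.L7h62.HT

open Pool.Agent.W292.FM Pool.Agent.W569.FM Pool.Agent.Y115.Chi Pool.Agent.Y115.R Module Matrix

variable (ℓ : ℕ) [hℓ : Fact ℓ.Prime]

theorem chiC_ne_zero (g : GLo ℓ) : chiC ℓ g ≠ 0 := by
  unfold chiC chiQ
  rw [Ne, FaithfulSMul.algebraMap_eq_zero_iff]
  intro h
  exact (chiL ℓ g).ne_zero (Subtype.ext h)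

theorem cpMap_chiC (g h : GLo ℓ) : cpMap ℓ g (chiC ℓ h) = chiC ℓ h := cpMap_algebraMap ℓ g _

theorem cpMap_zpow (g : GLo ℓ) (x : ℂ_[ℓ]) (m : ℤ) : cpMap ℓ g (x ^ m) = cpMap ℓ g x ^ m :=
  map_zpow₀ _ _ _

variable {F : Type} [Field F] [NumberField F] {K : Type} [Field K] [Algebra ℚ_[ℓ] K]

/-- the compatible pairs -/
def DD (e : AlgebraicClosure F →+* PadicAlgCl ℓ) (c : K →ₐ[ℚ_[ℓ]] ℂ_[ℓ]) :
    Subgroup (GLo ℓ × GF F) where
  carrier := {x | (∀ y, x.1 (e y) = e (x.2 y)) ∧ ∀ z, cpMap ℓ x.1 (c z) = c z}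
  one_mem' := ⟨fun _ => rfl, fun z => cpMap_one ℓ (c z)⟩
  mul_mem' := by
    intro a b ha hb
    refine ⟨fun y => ?_, fun z => ?_⟩
    · show a.1 (b.1 (e y)) = e (a.2 (b.2 y))
      rw [hb.1, ha.1]
    · show cpMap ℓ (a.1 * b.1) (c z) = c z
      rw [cpMap_mul, hb.2, ha.2]
  inv_mem' := by
    intro a ha
    refine ⟨fun y => ?_, fun z => ?_⟩
    · show a.1.symm (e y) = e (a.2.symm y)
      rw [AlgEquiv.symm_apply_eq, ha.1, AlgEquiv.apply_symm_apply]
    · show cpMap ℓ a.1⁻¹ (c z) = c z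
      conv_lhs => rw [← ha.2 z]
      rw [cpMap_inv_apply]

/-- the action on `ℂ_ℓ` -/
noncomputable def sD (e : AlgebraicClosure F →+* PadicAlgCl ℓ) (c : K →ₐ[ℚ_[ℓ]] ℂ_[ℓ]) :
    DD ℓ e c →* (ℂ_[ℓ] ≃+* ℂ_[ℓ]) where
  toFun x := cpMap ℓ x.1.1
  map_one' := by
    apply RingEquiv.ext
    intro x
    exact cpMap_one ℓ x
  map_mul' := by
    intro a b
    apply RingEquiv.ext
    intro x
    exact cpMap_mul ℓ a.1.1 b.1.1 x

variable {n : ℕ}

/-- `ρ` is Hodge–Tate at `e`, `c` with weights `M` -/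
def HTat (ρ : GF F →* GL (Fin n) K) (e : AlgebraicClosure F →+* PadicAlgCl ℓ)
    (c : K →ₐ[ℚ_[ℓ]] ℂ_[ℓ]) (M : Multiset ℤ) : Prop :=
  ∃ (P : Matrix (Fin n) (Fin n) ℂ_[ℓ]) (h : Fin n → ℤ), P.det ≠ 0 ∧ Finset.univ.val.map h = M ∧
    ∀ (g : GLo ℓ) (σ : GF F), (∀ x, g (e x) = e (σ x)) → (∀ z, cpMap ℓ g (c z) = c z) →
      ((ρ σ : GL (Fin n) K) : Matrix (Fin n) (Fin n) K).map c * P.map (cpMap ℓ g) =
        P * Matrix.diagonal (fun i => chiC ℓ g ^ (-h i))

/-- **The Hodge–Tate weights of a stable subspace.** -/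
theorem sub_det (hS : S_SUB) (hT : S_T0F ℓ) [FiniteDimensional ℚ_[ℓ] K]
    (ρ : GF F →* GL (Fin n) K) (e : AlgebraicClosure F →+* PadicAlgCl ℓ)
    (c : K →ₐ[ℚ_[ℓ]] ℂ_[ℓ]) (M : Multiset ℤ) (hM : HTat ℓ ρ e c M)
    (W : Submodule K (Fin n → K)) (hW : ∀ g, W ≤ W.comap (act ρ g)) :
    ∃ H : Multiset ℤ, Multiset.card H = finrank K W ∧
      (∃ y : ℂ_[ℓ], y ≠ 0 ∧ ∀ (g : GLo ℓ) (σ : GF F), (∀ x, g (e x) = e (σ x)) →
        (∀ z, cpMap ℓ g (c z) = c z) →
          c (dt ρ W hW σ : K) * cpMap ℓ g y = chiC ℓ g ^ (-H.sum) * y) ∧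
      ∀ (J : Matrix (Fin n) (Fin n) K) (w : ℤ), J.det ≠ 0 →
        (∀ σ, ((ρ σ : GL (Fin n) K) : Matrix (Fin n) (Fin n) K)ᵀ * J *
          ((ρ σ : GL (Fin n) K) : Matrix (Fin n) (Fin n) K) =
            (algebraMap ℚ_[ℓ] K (((chi F ℓ σ : ℤ_[ℓ]ˣ) : ℤ_[ℓ]) : ℚ_[ℓ])) ^ (-w) • J) →
        (∀ x ∈ W, ∀ y ∈ W, x ⬝ᵥ J *ᵥ y = 0) →
          H + H.map (fun h => w - h) ≤ M := by
  classical
  obtain ⟨P, h, hP, hMh, hPg⟩ := hM
  have hcinj : Function.Injective c := c.injective
  set k := finrank K W with hk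
  let b := Module.finBasis K W
  set β : Matrix (Fin n) (Fin k) K := Matrix.of fun i j => (b j : Fin n → K) i with hβ
  set A : GF F → Matrix (Fin k) (Fin k) K := fun σ => LinearMap.toMatrix b b (res ρ W hW σ) with hA
  have hβA : ∀ σ, ((ρ σ : GL (Fin n) K) : Matrix (Fin n) (Fin n) K) * β = β * A σ := by
    intro σ
    ext i j
    have h1 : (((res ρ W hW σ) (b j) : W) : Fin n → K) = ∑ l, A σ l j • (b l : Fin n → K) := by
      have h2 : (res ρ W hW σ) (b j) = ∑ l, A σ l j • b l := by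
        rw [hA]
        simp only [LinearMap.toMatrix_apply]
        exact (b.sum_repr _).symm
      rw [h2]
      simp
    have h2 : (((res ρ W hW σ) (b j) : W) : Fin n → K) =
        ((ρ σ : GL (Fin n) K) : Matrix (Fin n) (Fin n) K) *ᵥ (b j : Fin n → K) := rfl
    have h3 := congrFun (h2.symm.trans h1) i
    rw [Matrix.mul_apply, Matrix.mul_apply]
    have h4 : (((ρ σ : GL (Fin n) K) : Matrix (Fin n) (Fin n) K) *ᵥ (b j : Fin n → K)) i =
        ∑ l, ((ρ σ : GL (Fin n) K) : Matrix (Fin n) (Fin n) K) i l * β l j := rfl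
    rw [← h4, h3, Finset.sum_apply]
    refine Finset.sum_congr rfl fun l _ => ?_
    rw [Pi.smul_apply, smul_eq_mul, mul_comm]
    rfl
  have hβinj : Function.Injective β.mulVec := by
    intro x y hxy
    have h1 : ∀ x : Fin k → K, β *ᵥ x = ((∑ l, x l • b l : W) : Fin n → K) := by
      intro x
      ext i
      simp [Matrix.mulVec, dotProduct, hβ, mul_comm]
    rw [h1, h1] at hxy
    have h2 := Subtype.ext hxy
    have h3 := b.linearIndependent
    rw [Fintype.linearIndependent_iff] at h3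
    have h4 := h3 (x - y) (by
      simp only [Pi.sub_apply, sub_smul, Finset.sum_sub_distrib]
      rw [h2, sub_self])
    funext i
    exact sub_eq_zero.1 (h4 i)
  -- passage to `ℂ_ℓ`
  have hβC : Function.Injective (β.map c).mulVec := by
    have h1 : LinearMap.ker β.mulVecLin = ⊥ := LinearMap.ker_eq_bot.2 hβinj
    obtain ⟨g, hg⟩ := LinearMap.exists_leftInverse_of_injective β.mulVecLin h1
    have h2 : LinearMap.toMatrix' g * β = 1 := by
      have h3 := congrArg LinearMap.toMatrix' hg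
      rw [LinearMap.toMatrix'_comp, LinearMap.toMatrix'_id] at h3
      rwa [← Matrix.toLin'_apply', LinearMap.toMatrix'_toLin'] at h3
    have h3 : (LinearMap.toMatrix' g).map c * β.map c = 1 := by
      have h4 := congrArg (fun X : Matrix (Fin k) (Fin k) K => X.map c) h2
      simp only [Matrix.map_mul] at h4
      rw [h4, Matrix.map_one c (map_zero c) (map_one c)]
    intro x y hxy
    have h4 := congrArg (fun v => (LinearMap.toMatrix' g).map c *ᵥ v) hxy
    simp only [Matrix.mulVec_mulVec, h3, Matrix.one_mulVec] at h4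
    exact h4
  -- the structure of the restriction
  obtain ⟨f, Q, hQ, hAQ, hiso⟩ := hS ℂ_[ℓ] (DD ℓ e c) (sD ℓ e c) (fun x => chiC ℓ x.1.1)
    (fun x => chiC_ne_zero ℓ _) (fun x y => cpMap_chiC ℓ _ _)
    (fun m hm y hy => t0_fix ℓ hT e c hm y fun g σ h1 h2 => hy ⟨(g, σ), h1, h2⟩) n k
    (fun x => ((ρ x.1.2 : GL (Fin n) K) : Matrix (Fin n) (Fin n) K).map c) P h hP
    (fun x => hPg x.1.1 x.1.2 x.2.1 x.2.2) (β.map c) hβC (by
      intro x
      ext i j
      exact x.2.2 (β i j)) (fun x => (A x.1.2).map c) (by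
      intro x
      have h1 := congrArg (fun X : Matrix (Fin n) (Fin k) K => X.map c) (hβA x.1.2)
      simp only [Matrix.map_mul] at h1
      exact h1)
  refine ⟨Finset.univ.val.map fun j => h (f j), ?_, ?_, ?_⟩
  · rw [Multiset.card_map]
    simp
  · refine ⟨Q.det, hQ, fun g σ h1 h2 => ?_⟩
    have h3 := congrArg Matrix.det (hAQ ⟨(g, σ), h1, h2⟩)
    rw [Matrix.det_mul, Matrix.det_mul, Matrix.det_diagonal] at h3
    have h4 : (dt ρ W hW σ : K) = (A σ).det := by
      rw [coe_dt, hA]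
      exact (LinearMap.det_toMatrix b _).symm
    have h5 : c (A σ).det = ((A σ).map c).det := by
      rw [← AlgHom.mapMatrix_apply, AlgHom.map_det]
    have h6 : cpMap ℓ g Q.det = (Q.map (cpMap ℓ g)).det := by
      rw [← RingEquiv.coe_toRingHom, ← RingHom.mapMatrix_apply, ← RingHom.map_det]
    have h7 : ∏ j, chiC ℓ g ^ (-h (f j)) =
        chiC ℓ g ^ (-(Finset.univ.val.map fun j => h (f j)).sum) := by
      have h8 : ∀ s : Finset (Fin k), ∏ j ∈ s, chiC ℓ g ^ (-h (f j)) =
          chiC ℓ g ^ (-(∑ j ∈ s, h (f j))) := by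
        intro s
        induction s using Finset.induction_on with
        | empty => simp
        | insert j s hj ih =>
          rw [Finset.prod_insert hj, Finset.sum_insert hj, ih, neg_add,
            zpow_add₀ (chiC_ne_zero ℓ g)]
      exact h8 Finset.univ
    rw [h4, h5, h6, ← h7, mul_comm (∏ j, _)]
    exact h3
  · intro J w hJ hJρ hJW
    have h1 := hiso (J.map c) w (by
        rw [← AlgHom.mapMatrix_apply, ← AlgHom.map_det]
        exact fun h => hJ ((map_eq_zero c).1 h)) (by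
        intro x
        ext i j
        exact x.2.2 (J i j)) (by
        intro x
        have h1 := congrArg (fun X : Matrix (Fin n) (Fin n) K => X.map c) (hJρ x.1.2)
        simp only [Matrix.map_mul, Matrix.transpose_map] at h1
        rw [h1]
        ext i j
        have h2 := chiQ_compat ℓ e x.1.1 x.1.2 x.2.1
        simp only [Matrix.map_apply, Matrix.smul_apply, smul_eq_mul, map_mul, map_zpow₀]
        rw [← h2, c.commutes]
        rfl) (by
        have h1 : βᵀ * J * β = 0 := by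
          ext i j
          have h2 := hJW (b i) (b i).2 (b j) (b j).2
          rw [Matrix.mul_assoc, Matrix.zero_apply, ← h2]
          rfl
        have h2 := congrArg (fun X : Matrix (Fin k) (Fin k) K => X.map c) h1
        simp only [Matrix.map_mul, Matrix.transpose_map] at h2
        rw [h2]
        ext i j
        simp)
    rw [← hMh, Multiset.le_iff_count]
    intro t
    rw [Multiset.count_add, Multiset.map_map]
    have key : ∀ (m : ℕ) (u : Fin m → ℤ) (t : ℤ), Multiset.count t (Finset.univ.val.map u) =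
        (Finset.univ.filter fun j => u j = t).card := by
      intro m u t
      rw [Multiset.count_map]
      simp only [eq_comm]
      rfl
    have h2 := h1 t
    have h3 : Multiset.count t (Finset.univ.val.map ((fun h => w - h) ∘ fun j => h (f j))) =
        (Finset.univ.filter fun j => h (f j) = w - t).card := by
      rw [key]
      congr 1
      apply Finset.filter_congr
      intro j _
      simp only [Function.comp]
      constructor <;> intro h4 <;> omega
    rw [h3, key, key]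
    exact h2

end Pool.Agent.L7h62.HT
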