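import Pool.Agent.W292.FM.Galois
import Pool.Agent.Y115.Final

set_option autoImplicit false

/-!
# Hodge–Tate weights and semisimplicity: statements

`C = ℂ_[ℓ]`, `A = PadicAlgCl ℓ`, `G = Gal(A/ℚ_[ℓ])`; `cpMap ℓ g` is the extension of `g` to `C`.
-/

namespace Pool.Agent.L7h62.HT

open Pool.Agent.W292.FM Module Matrix

variable (ℓ : ℕ) [hℓ : Fact ℓ.Prime]

/-- the local Galois group -/
abbrev GLo : Type := Gal(PadicAlgCl ℓ/ℚ_[ℓ])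

/-- the cyclotomic character of the local Galois group -/
noncomputable def chiL : GLo ℓ →* ℤ_[ℓ]ˣ :=
  (cyclotomicCharacter (PadicAlgCl ℓ) ℓ).comp
    (MulSemiringAction.toRingAut Gal(PadicAlgCl ℓ/ℚ_[ℓ]) (PadicAlgCl ℓ))

/-- the values of the cyclotomic character in `ℚ_ℓ` -/
noncomputable def chiQ (g : GLo ℓ) : ℚ_[ℓ] := ((chiL ℓ g : ℤ_[ℓ]ˣ) : ℤ_[ℓ])

/-- the values of the cyclotomic character in `ℂ_ℓ` -/
noncomputable def chiC (g : GLo ℓ) : ℂ_[ℓ] := algebraMap ℚ_[ℓ] ℂ_[ℓ] (chiQ ℓ g)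

/-! ## The theorem of Tate -/

/-- **AX (Ax's lemma).** `K` is any subfield of `A` containing `ℚ_ℓ`. If all conjugates of `α` over
`K` are within `r` of `α` then `α` is within `C r` of an element of `K`.

Proof (Ax). Induction on `n = [K(α):K]`, with constant `ℓ ^ (2 - 2 / 2 ^ (Nat.log ℓ n))`. Let `q` be the
largest power of `ℓ` dividing `n` if `n` is not a power of `ℓ`, and `q = n / ℓ` if `n` is a power of `ℓ`
(`n > 1`). Let `P` be the minimal polynomial of `α` over `K`; `P(X + α)` has roots `σα - α` of norm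
`≤ r`, so its coefficient of `X^q` has norm `≤ r ^ (n - q)`. So the `q`-th Hasse derivative
`Q` of `P` (degree `n - q`, coefficients in `K`, leading coefficient `choose n q`) has a root `β` with
`‖β - α‖ ^ (n - q) ≤ r ^ (n - q) / ‖choose n q‖`. `choose n q` is a unit in the first case, of norm `ℓ⁻¹`
with `n - q = q (ℓ - 1)` in the second case. `β` has degree `< n` over `K` and for `σ` fixing `K`:
`‖σβ - β‖ ≤ max ‖β - α‖ r`. (`K` may be of infinite degree; the conjugates of `α` over `K` are the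
`σ α`, `σ ∈ Gal(A/K)`, by `minpoly.exists_algEquiv_of_root'` or `IsConjRoot`. Norm invariance:
`Pool.Agent.W292.FM.norm_gal`.) -/
def S_AX : Prop :=
  ∃ C : ℝ, 0 < C ∧ ∀ (K : IntermediateField ℚ_[ℓ] (PadicAlgCl ℓ)) (α : PadicAlgCl ℓ) (r : ℝ),
    (∀ σ : GLo ℓ, (∀ x ∈ K, σ x = x) → ‖σ α - α‖ ≤ r) → ∃ a ∈ K, ‖α - a‖ ≤ C * r

/-- **BALL.** The ring of integers of `ℚ_ℓ(ζ)` is `ℤ_ℓ[ζ]`, `ζ` of order `ℓ ^ s`.

Proof. `φ = φ(ℓ^s)`, `π = ζ - 1`. From `Φ_{ℓ^s}(1) = ℓ` (`Polynomial.eval_one_cyclotomic_prime_pow`) and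
`‖1 - ζ^a‖ = ‖1 - ζ‖` for `a` prime to `ℓ` (each divides the other in the ring of integers):
`‖π‖ ^ φ = ℓ⁻¹`. Every `z ∈ ℚ_ℓ(ζ)` is a polynomial in `π` of degree `< φ` over `ℚ_ℓ` (divide by
`Φ(X + 1)`); in `∑ c_i π^i` the norms of the nonzero terms are different
(they are `ℓ ^ (integer - i / φ)`), so the norm of the sum is the maximum. `‖z‖ ≤ 1` then gives
`‖c_i‖ ≤ ‖π‖⁻¹ ^ i < ℓ`, so `‖c_i‖ ≤ 1`. Expand `π^i = (ζ - 1)^i`. -/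
def S_BALL : Prop :=
  ∀ (s : ℕ), 1 ≤ s → ∀ ζ : PadicAlgCl ℓ, IsPrimitiveRoot ζ (ℓ ^ s) →
    ∀ z ∈ IntermediateField.adjoin ℚ_[ℓ] {ζ}, ‖z‖ ≤ 1 →
      ∃ c : ℕ → ℤ_[ℓ], z = ∑ i ∈ Finset.range (ℓ ^ s), ((c i : ℚ_[ℓ])) • ζ ^ i

/-- **AUT.** The Galois group acts on the roots of unity of order `ℓ ^ s` through all of `(ℤ/ℓ^s)ˣ`.

Proof. The minimal polynomial of `ζ` over `ℚ_ℓ` is the cyclotomic polynomial (it is Eisenstein after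
`X ↦ X + 1`; or: by the first lines of BALL, `1, π, ..., π^(φ-1)` are linearly independent). Then
`minpoly.exists_algEquiv_of_root'`. -/
def S_AUT : Prop :=
  ∀ (s : ℕ), 1 ≤ s → ∀ ζ : PadicAlgCl ℓ, IsPrimitiveRoot ζ (ℓ ^ s) → ∀ a : ℕ, a.Coprime ℓ →
    ∃ σ : GLo ℓ, σ ζ = ζ ^ a

/-- **TR (Tate's normalized trace).**

Proof from BALL and AUT. For `i < ℓ^(s-j)` let `σ_{j,i}` be an automorphism with
`σ ζ = ζ ^ (1 + ℓ^j i)` and `R_j = ℓ^(j-s) ∑_{i < ℓ^(s-j)} σ_{j,i}` (3 ≤ j ≤ s), a linear map on `A`. On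
the powers of `ζ`: `R_j (ζ^t) = ζ^t` if `ℓ^(s-j) ∣ t` and `0` otherwise (sum of all powers of a root of
unity `≠ 1`). So `R_j` maps the unit ball of `K_s = ℚ_ℓ(ζ)` to the unit ball by BALL, and
`‖R_j z‖ ≤ ℓ ‖z‖` for `z ∈ K_s` (scale by a power of `ℓ`). The `R_j` and the `g ∈ G` commute on `K_s`
(check on the `ζ^t`). `R = R_3`; if `χ(g) ≡ 1 mod ℓ^3` then `g ζ = ζ^(1 + ℓ^3 i)` and `g R z = R z = R g z`
(check on `ζ^t`). Last part: `R_s z = z`, and for `w = R_(j+1) z`,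
`w - R_j z = ℓ⁻¹ ∑_{i < ℓ} (w - σ_{j,i} w) = ℓ⁻¹ ∑_{i < ℓ} R_(j+1) (z - σ_{j,i} z)` (check on `ζ^t`),
of norm `≤ ℓ ^ 2 r`, so `‖z - R z‖ ≤ ℓ ^ 2 r` by the ultrametric inequality (`σ_{j,i}` satisfies
`χ(σ_{j,i}) ≡ 1 mod ℓ^3` for `j ≥ 3`: `cyclotomicCharacter.spec`). -/
def S_TR : Prop :=
  ∀ (s : ℕ), 4 ≤ s → ∀ ζ : PadicAlgCl ℓ, IsPrimitiveRoot ζ (ℓ ^ s) →
    ∃ R : PadicAlgCl ℓ →ₗ[ℚ_[ℓ]] PadicAlgCl ℓ, ∀ z ∈ IntermediateField.adjoin ℚ_[ℓ] {ζ},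
      ‖R z‖ ≤ ℓ * ‖z‖ ∧
      (∀ g : GLo ℓ, ‖chiQ ℓ g - 1‖ ≤ (ℓ : ℝ) ^ (-3 : ℤ) → g (R z) = R z ∧ R (g z) = R z) ∧
      ∀ r : ℝ, (∀ g : GLo ℓ, ‖chiQ ℓ g - 1‖ ≤ (ℓ : ℝ) ^ (-3 : ℤ) → ‖g z - z‖ ≤ r) →
        ‖z - R z‖ ≤ (ℓ : ℝ) ^ 2 * r

/-- **GEN.** An element with `χ(γ) ≡ 1 mod ℓ^3` such that `χ(γ)` is not a root of unity.

Proof from AUT with `s = 4`, `a = 1 + ℓ^3`: `χ(γ) ≡ 1 + ℓ^3 mod ℓ^4`, so `0 < ‖χ(γ) - 1‖ ≤ ℓ^(-3)`; use the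
logarithm of `Pool/Agent/Y115/Log.lean` (`lg_pow`, `lg_eq_zero`, `lg_one`). -/
def S_GEN : Prop :=
  ∃ γ : GLo ℓ, ‖chiQ ℓ γ - 1‖ ≤ (ℓ : ℝ) ^ (-3 : ℤ) ∧ ∀ m : ℤ, m ≠ 0 → chiQ ℓ γ ^ m ≠ 1

/-- **T0 (Tate).** `H⁰(G, C(m)) = 0` for `m ≠ 0`.

Proof from AX, TR, GEN. Let `K_∞` be generated by all roots of unity of `ℓ`-power order. Given `ε > 0`
choose `α ∈ A` with `‖x - α‖ ≤ ε`; if `g` fixes `K_∞` then `χ(g) = 1`, `g x = x`, so `‖g α - α‖ ≤ ε` and by AX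
there is `z ∈ K_∞` with `‖x - z‖ ≤ C ε` (new `C ≥ 1`); `z ∈ ℚ_ℓ(ζ)` for some `ζ` of order `ℓ^s`, `s ≥ 4`. Put
`λ_g = χ(g)^m`; `‖g z - λ_g z‖ ≤ C ε` for all `g`. For `g` with `χ(g) ≡ 1 mod ℓ^3`: `‖λ_g - 1‖ ≤ ℓ^(-3)`,
`R (g z - λ_g z) = (1 - λ_g) R z`, so with `g = γ`: `‖1 - λ_γ‖ ‖R z‖ ≤ ℓ C ε`; and `z' = z - R z` has
`g z' - λ_g z' = (g z - λ_g z) - (1 - λ_g) R z`, of norm `≤ ℓ C ε`, so
`‖g z - z‖ = ‖g z' - z'‖ ≤ max (ℓ C ε) (ℓ^(-3) ‖z'‖)`, hence `‖z'‖ ≤ ℓ^2 max (ℓ C ε) (ℓ^(-3) ‖z'‖)`, i.e.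
`‖z'‖ ≤ ℓ^3 C ε`. So `‖x‖ ≤ const ε`. -/
def S_T0 : Prop :=
  ∀ m : ℤ, m ≠ 0 → ∀ x : ℂ_[ℓ], (∀ g : GLo ℓ, cpMap ℓ g x = chiC ℓ g ^ m * x) → x = 0

/-- **T0F.** The same for subgroups of finite index.

Proof from T0: `y = ∏_{q ∈ G/H} χ(t_q)^(-m) t_q(x)` (representatives `t_q = q.out`; the factor does not
depend on the representative) satisfies `g y = χ(g)^(m [G:H]) y` for all `g ∈ G`. -/
def S_T0F : Prop :=
  ∀ (H : Subgroup (GLo ℓ)), H.FiniteIndex → ∀ m : ℤ, m ≠ 0 → ∀ x : ℂ_[ℓ],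
    (∀ g ∈ H, cpMap ℓ g x = chiC ℓ g ^ m * x) → x = 0

/-! ## Semilinear algebra -/

/-- **SUB.** A group `D` acts on a field `C` by automorphisms `s g`, `χ : D → Cˣ` has values fixed by `D`, and
`x ∈ C` with `s_g(x) = χ(g)^m x` for all `g`, `m ≠ 0`, is `0`. `M g ∈ M_n(C)` and `P` invertible with
`M_g s_g(P) = P diag(χ(g)^(-h_i))`. `β ∈ M_{n×k}(C)` has independent columns, fixed entries, and
`M_g β = β A_g`. Then `A` has the same structure, with weights `h_{f j}`, `f` injective; and if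
`J` is invertible with `M_gᵀ J M_g = χ(g)^(-w) J`, fixed entries, and `βᵀ J β = 0` then the number of `j` with
`h_{f j} = h` plus the number of `j` with `h_{f j} = w - h` is at most the number of `i` with `h_i = h`.

Proof. `R = P⁻¹ β ∈ M_{n×k}(C)`, of rank `k`; choose `k` independent rows `f : Fin k → Fin n`, let `R_f` be the
invertible `k × k` submatrix and `Q = R_f⁻¹`, `S = R Q = P⁻¹ β Q` (rows `f`: identity). From
`P⁻¹ M_g s_g(P) = diag(χ^(-h))`: `diag(χ^(-h)) s_g(R) = R A_g` (as `s_g(β) = β`). Rows `f` of it give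
`diag(χ^(-h_f)) s_g(R_f) = R_f A_g`, which is the claim `A_g s_g(Q) = Q diag(χ^(-h_f))`. And then
`diag(χ^(-h)) s_g(S) = S diag(χ^(-h_f))`, i.e. `s_g(S_ij) = χ^(h_i - h_{f j}) S_ij`, so `S_ij = 0` unless
`h_i = h_{f j}`. For the second part `b = Pᵀ J P` is invertible with `s_g(b_ij) = χ^(w - h_i - h_j) b_ij`,
so `b_ij = 0` unless `h_i + h_j = w`, and `Sᵀ b S = 0`. Fix `h`; `E_h = {x ∈ Cⁿ : x_i = 0 unless h_i = h}`
has dimension `#{i : h_i = h}`, contains the columns `S_j` with `h_{f j} = h` (independent), which are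
killed by the functionals `x ↦ xᵀ b S_l` with `h_{f l} = w - h`; these functionals are
independent on `E_h` (a combination `xᵀ b v`, `v ∈ E_{w-h}`, that vanishes on `E_h` vanishes on all of `Cⁿ`, so
`b v = 0`, `v = 0`). Rank-nullity. -/
def S_SUB : Prop :=
  ∀ (C : Type) [Field C] (D : Type) [Group D] (s : D →* (C ≃+* C)) (χ : D → C)
    (_ : ∀ g, χ g ≠ 0) (_ : ∀ g h, s g (χ h) = χ h)
    (_ : ∀ m : ℤ, m ≠ 0 → ∀ x : C, (∀ g, s g x = χ g ^ m * x) → x = 0)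
    (n k : ℕ) (M : D → Matrix (Fin n) (Fin n) C) (P : Matrix (Fin n) (Fin n) C) (h : Fin n → ℤ)
    (_ : P.det ≠ 0)
    (_ : ∀ g, M g * P.map (s g) = P * Matrix.diagonal (fun i => χ g ^ (-h i)))
    (β : Matrix (Fin n) (Fin k) C) (_ : Function.Injective β.mulVec)
    (_ : ∀ g, β.map (s g) = β) (A : D → Matrix (Fin k) (Fin k) C) (_ : ∀ g, M g * β = β * A g),
    ∃ (f : Fin k ↪ Fin n) (Q : Matrix (Fin k) (Fin k) C), Q.det ≠ 0 ∧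
      (∀ g, A g * Q.map (s g) = Q * Matrix.diagonal (fun j => χ g ^ (-h (f j)))) ∧
      ∀ (J : Matrix (Fin n) (Fin n) C) (w : ℤ), J.det ≠ 0 → (∀ g, J.map (s g) = J) →
        (∀ g, (M g)ᵀ * J * M g = χ g ^ (-w) • J) → βᵀ * J * β = 0 →
        ∀ t : ℤ, (Finset.univ.filter fun j => h (f j) = t).card +
          (Finset.univ.filter fun j => h (f j) = w - t).card ≤
            (Finset.univ.filter fun i => h i = t).card

end Pool.Agent.L7h62.HT
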