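import Pool.Agent.L7h62.HT.T0f

set_option autoImplicit false

/-!
# Tate's theorem `H⁰(G, C(m)) = 0`, from Ax's lemma and the normalized traces
-/

namespace Pool.Agent.L7h62.HT

open Pool.Agent.W292.FM

variable (ℓ : ℕ) [hℓ : Fact ℓ.Prime]

/-- the field generated by all roots of unity of `ℓ`-power order -/
noncomputable def Kinf : IntermediateField ℚ_[ℓ] (PadicAlgCl ℓ) :=
  IntermediateField.adjoin ℚ_[ℓ] {t : PadicAlgCl ℓ | ∃ s : ℕ, t ^ (ℓ ^ s) = 1}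

theorem exists_prim (s : ℕ) : ∃ ζ : PadicAlgCl ℓ, IsPrimitiveRoot ζ (ℓ ^ s) := by
  have : NeZero (ℓ ^ s) := ⟨(pow_pos hℓ.out.pos s).ne'⟩
  exact HasEnoughRootsOfUnity.exists_primitiveRoot (PadicAlgCl ℓ) (ℓ ^ s)

theorem mem_Kinf {z : PadicAlgCl ℓ} (hz : z ∈ Kinf ℓ) :
    ∃ s, 4 ≤ s ∧ ∃ ζ : PadicAlgCl ℓ, IsPrimitiveRoot ζ (ℓ ^ s) ∧
      z ∈ IntermediateField.adjoin ℚ_[ℓ] {ζ} := by
  classical
  obtain ⟨T, hT, hzT⟩ := IntermediateField.exists_finset_of_mem_adjoin hz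
  have h1 : ∀ t ∈ T, ∃ s : ℕ, t ^ (ℓ ^ s) = 1 := fun t ht => hT ht
  choose! f hf using h1
  set s := max 4 (T.sup f) with hs
  obtain ⟨ζ, hζ⟩ := exists_prim ℓ s
  refine ⟨s, le_max_left _ _, ζ, hζ, ?_⟩
  have h2 : IntermediateField.adjoin ℚ_[ℓ] (T : Set (PadicAlgCl ℓ)) ≤
      IntermediateField.adjoin ℚ_[ℓ] {ζ} := by
    rw [IntermediateField.adjoin_le_iff]
    intro t ht
    have h3 : t ^ (ℓ ^ s) = 1 := by
      have h4 : f t ≤ s := (Finset.le_sup (f := f) ht).trans (le_max_right _ _)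
      obtain ⟨d, hd⟩ := Nat.exists_eq_add_of_le h4
      rw [hd, pow_add, pow_mul, hf t ht, one_pow]
    have : NeZero (ℓ ^ s) := ⟨(pow_pos hℓ.out.pos s).ne'⟩
    obtain ⟨i, -, hi⟩ := hζ.eq_pow_of_pow_eq_one h3
    rw [← hi]
    exact pow_mem (IntermediateField.mem_adjoin_simple_self ℚ_[ℓ] ζ) i
  exact h2 hzT

theorem chiL_of_fix {g : GLo ℓ} (hg : ∀ x ∈ Kinf ℓ, g x = x) : chiL ℓ g = 1 := by
  apply Units.ext
  refine PadicInt.ext_of_toZModPow.mp fun n => ?_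
  obtain ⟨t, ht⟩ := exists_prim ℓ n
  have hpos : 0 < ℓ ^ n := pow_pos hℓ.out.pos n
  have : NeZero (ℓ ^ n) := ⟨hpos.ne'⟩
  have h1 := chiL_root ℓ g ht.pow_eq_one
  have h0 : chiL ℓ (1 : GLo ℓ) = 1 := map_one _
  have h2 := chiL_root ℓ (1 : GLo ℓ) ht.pow_eq_one
  have h3 : t ∈ Kinf ℓ := IntermediateField.subset_adjoin _ _ ⟨n, ht.pow_eq_one⟩
  rw [hg t h3] at h1
  rw [AlgEquiv.one_apply, h0] at h2
  have h4 := ht.pow_inj (ZMod.val_lt _) (ZMod.val_lt _) (h1.symm.trans h2)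
  exact ZMod.val_injective _ h4

theorem norm_chiQ (g : GLo ℓ) : ‖chiQ ℓ g‖ = 1 := by
  unfold chiQ
  rw [← PadicInt.norm_def]
  exact PadicInt.norm_units _

theorem norm_sub_le_max' {V : Type*} [SeminormedAddCommGroup V] [IsUltrametricDist V] (x y : V) :
    ‖x - y‖ ≤ max ‖x‖ ‖y‖ := by
  rw [sub_eq_add_neg, ← norm_neg y]
  exact IsUltrametricDist.norm_add_le_max _ _

theorem near_pow {u : ℚ_[ℓ]} {r : ℝ} (hr : r < 1) (hu : ‖u - 1‖ ≤ r) (k : ℕ) :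
    ‖u ^ k - 1‖ ≤ r := by
  have hn : ‖u‖ ≤ 1 := by
    have h1 : u = (u - 1) + 1 := by ring
    rw [h1]
    refine (IsUltrametricDist.norm_add_le_max _ _).trans (max_le (hu.trans hr.le) ?_)
    rw [norm_one]
  have hr0 : 0 ≤ r := (norm_nonneg _).trans hu
  induction k with
  | zero => simpa using hr0
  | succ k ih =>
    have h1 : u ^ (k + 1) - 1 = u * (u ^ k - 1) + (u - 1) := by ring
    rw [h1]
    refine (IsUltrametricDist.norm_add_le_max _ _).trans (max_le ?_ hu)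
    rw [norm_mul]
    exact (mul_le_of_le_one_left (norm_nonneg _) hn).trans ih

theorem near_zpow {u : ℚ_[ℓ]} {r : ℝ} (hr : r < 1) (hu : ‖u - 1‖ ≤ r) (hu1 : ‖u‖ = 1) (m : ℤ) :
    ‖u ^ m - 1‖ ≤ r := by
  obtain ⟨k, rfl | rfl⟩ := m.eq_nat_or_neg
  · rw [zpow_natCast]
    exact near_pow ℓ hr hu k
  · rw [zpow_neg, zpow_natCast]
    have h0 : u ^ k ≠ 0 := pow_ne_zero _ (norm_pos_iff.1 (by rw [hu1]; exact one_pos))
    have h1 : (u ^ k)⁻¹ - 1 = -((u ^ k)⁻¹ * (u ^ k - 1)) := by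
      rw [mul_sub, inv_mul_cancel₀ h0]
      ring
    rw [h1, norm_neg, norm_mul, norm_inv, norm_pow, hu1, one_pow, inv_one, one_mul]
    exact near_pow ℓ hr hu k

theorem s_T0 (hA : S_AX ℓ) (hT : S_TR ℓ) (hG : S_GEN ℓ) : S_T0 ℓ := by
  intro m hm x hx
  obtain ⟨C₀, hC₀, hA⟩ := hA
  obtain ⟨γ, hγ, hγm⟩ := hG
  have hl1 : (1 : ℝ) < ℓ := by exact_mod_cast hℓ.out.one_lt
  have hl0 : (0 : ℝ) < ℓ := by linarith
  set C : ℝ := max 1 C₀ with hC
  have hC1 : 1 ≤ C := le_max_left _ _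
  set q : ℝ := (ℓ : ℝ) ^ (-3 : ℤ) with hq
  have hq3 : q * (ℓ : ℝ) ^ 3 = 1 := by
    rw [hq, ← zpow_natCast, ← zpow_add₀ hl0.ne']
    norm_num
  have hl3 : (1 : ℝ) < (ℓ : ℝ) ^ 3 := one_lt_pow₀ hl1 (by norm_num)
  have hq0 : 0 < q := by positivity
  have hq1 : q < 1 := by nlinarith
  set δ : ℝ := ‖chiQ ℓ γ ^ m - 1‖ with hδ
  have hδ0 : 0 < δ := by
    rw [hδ, norm_pos_iff, sub_ne_zero]
    exact hγm m hm
  set B : ℝ := C * (ℓ ^ 3 + ℓ / δ + 1) with hB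
  have hB0 : 0 < B := by positivity
  -- the main estimate
  have key : ∀ ε : ℝ, 0 < ε → ‖x‖ ≤ B * ε := by
    intro ε hε
    obtain ⟨α, hα⟩ : ∃ α : PadicAlgCl ℓ, ‖x - (α : ℂ_[ℓ])‖ < ε := by
      have h1 := UniformSpace.Completion.denseRange_coe (α := PadicAlgCl ℓ)
      obtain ⟨α, hα⟩ := h1.exists_dist_lt x hε
      exact ⟨α, by rwa [dist_eq_norm] at hα⟩
    have hsmall : ∀ g : GLo ℓ, ∀ z : PadicAlgCl ℓ, ∀ r : ℝ, ‖x - (z : ℂ_[ℓ])‖ ≤ r →
        ‖g z - (chiQ ℓ g ^ m) • z‖ ≤ r := by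
      intro g z r hr
      have h1 : ((g z - (chiQ ℓ g ^ m) • z : PadicAlgCl ℓ) : ℂ_[ℓ]) =
          chiC ℓ g ^ m * (x - z) - cpMap ℓ g (x - z) := by
        have h2 : ((g z - (chiQ ℓ g ^ m) • z : PadicAlgCl ℓ) : ℂ_[ℓ]) =
            ((g z : PadicAlgCl ℓ) : ℂ_[ℓ]) - (((chiQ ℓ g ^ m) • z : PadicAlgCl ℓ) : ℂ_[ℓ]) :=
          map_sub (algebraMap (PadicAlgCl ℓ) ℂ_[ℓ]) _ _
        have h3 : (((chiQ ℓ g ^ m) • z : PadicAlgCl ℓ) : ℂ_[ℓ]) = chiC ℓ g ^ m * z := by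
          rw [Algebra.smul_def]
          have h4 : ((algebraMap ℚ_[ℓ] (PadicAlgCl ℓ) (chiQ ℓ g ^ m) * z : PadicAlgCl ℓ) : ℂ_[ℓ]) =
            algebraMap ℚ_[ℓ] ℂ_[ℓ] (chiQ ℓ g ^ m) * (z : ℂ_[ℓ]) :=
            map_mul (algebraMap (PadicAlgCl ℓ) ℂ_[ℓ]) _ _
          rw [h4, map_zpow₀]
          rfl
        rw [h2, h3, map_sub, cpMap_coe, hx g]
        ring
      rw [← PadicComplex.norm_extends, h1]
      refine (norm_sub_le_max' _ _).trans (max_le ?_ ?_)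
      · rw [norm_mul, norm_zpow]
        have h4 : ‖chiC ℓ g‖ = 1 := by
          unfold chiC
          rw [norm_algebraMap', norm_chiQ]
        rw [h4, one_zpow, one_mul]
        exact hr
      · rw [norm_cpMap]
        exact hr
    obtain ⟨z, hz, hαz⟩ := hA (Kinf ℓ) α ε (fun σ hσ => by
      have h1 := hsmall σ α ε hα.le
      have h2 : chiQ ℓ σ = 1 := by
        unfold chiQ
        rw [chiL_of_fix ℓ hσ, Units.val_one, PadicInt.coe_one]
      rwa [h2, one_zpow, one_smul] at h1)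
    have hxz : ‖x - (z : ℂ_[ℓ])‖ ≤ C * ε := by
      have h1 : x - (z : ℂ_[ℓ]) = (x - α) + ((α - z : PadicAlgCl ℓ) : ℂ_[ℓ]) := by
        have h2 : ((α - z : PadicAlgCl ℓ) : ℂ_[ℓ]) = (α : ℂ_[ℓ]) - z :=
          map_sub (algebraMap (PadicAlgCl ℓ) ℂ_[ℓ]) _ _
        rw [h2]
        ring
      rw [h1]
      refine (IsUltrametricDist.norm_add_le_max _ _).trans (max_le ?_ ?_)
      · exact hα.le.trans (le_mul_of_one_le_left hε.le hC1)
      · rw [PadicComplex.norm_extends]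
        exact hαz.trans (mul_le_mul_of_nonneg_right (le_max_right _ _) hε.le)
    obtain ⟨s, hs, ζ, hζ, hzζ⟩ := mem_Kinf ℓ hz
    obtain ⟨R, hR⟩ := hT s hs ζ hζ
    obtain ⟨-, hR2, hR3⟩ := hR z hzζ
    have hCε : 0 ≤ C * ε := by positivity
    -- the element `g z - λ z`
    have hmem : ∀ g : GLo ℓ, g z - (chiQ ℓ g ^ m) • z ∈ IntermediateField.adjoin ℚ_[ℓ] {ζ} := by
      intro g
      have h1 : g z ∈ IntermediateField.adjoin ℚ_[ℓ] {ζ} := by
        have h2 : g z ∈ (IntermediateField.adjoin ℚ_[ℓ] {ζ}).map (g : PadicAlgCl ℓ →ₐ[ℚ_[ℓ]] PadicAlgCl ℓ) :=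
          ⟨z, hzζ, rfl⟩
        rw [IntermediateField.adjoin_map, Set.image_singleton] at h2
        refine (IntermediateField.adjoin_simple_le_iff.2 ?_) h2
        have h3 := chiL_root ℓ g hζ.pow_eq_one
        show g ζ ∈ _
        rw [h3]
        exact pow_mem (IntermediateField.mem_adjoin_simple_self ℚ_[ℓ] ζ) _
      exact sub_mem h1 (IntermediateField.smul_mem _ hzζ)
    have hu : ∀ g : GLo ℓ, ‖g z - (chiQ ℓ g ^ m) • z‖ ≤ C * ε := fun g => hsmall g z _ hxz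
    have hRu : ∀ g : GLo ℓ, ‖chiQ ℓ g - 1‖ ≤ q →
        ‖(1 - chiQ ℓ g ^ m) • R z‖ ≤ ℓ * (C * ε) := by
      intro g hg
      have h1 : (1 - chiQ ℓ g ^ m) • R z = R (g z - (chiQ ℓ g ^ m) • z) := by
        rw [map_sub, map_smul, (hR2 g hg).2, sub_smul, one_smul]
      rw [h1]
      refine (hR _ (hmem g)).1.trans ?_
      exact mul_le_mul_of_nonneg_left (hu g) hl0.le
    -- the first component
    have hRz : ‖R z‖ ≤ ℓ * (C * ε) / δ := by
      have h1 := hRu γ hγ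
      rw [norm_smul, ← norm_neg, neg_sub, ← hδ] at h1
      rw [le_div_iff₀ hδ0]
      linarith
    -- the second component
    set z' : PadicAlgCl ℓ := z - R z with hz'
    have hgz : ∀ g : GLo ℓ, ‖chiQ ℓ g - 1‖ ≤ q → ‖g z - z‖ ≤ max (ℓ * (C * ε)) (q * ‖z'‖) := by
      intro g hg
      have h1 : g z - z = ((g z - (chiQ ℓ g ^ m) • z) - (1 - chiQ ℓ g ^ m) • R z) +
          (chiQ ℓ g ^ m - 1) • z' := by
        rw [hz', smul_sub, sub_smul, sub_smul, sub_smul, one_smul, one_smul]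
        abel
      rw [h1]
      refine (IsUltrametricDist.norm_add_le_max _ _).trans (max_le_max ?_ ?_)
      · refine (norm_sub_le_max' _ _).trans (max_le ?_ (hRu g hg))
        exact (hu g).trans (le_mul_of_one_le_left hCε hl1.le)
      · rw [norm_smul]
        exact mul_le_mul_of_nonneg_right (near_zpow ℓ hq1 hg (norm_chiQ ℓ g) m) (norm_nonneg _)
    have hz'1 : ‖z'‖ ≤ ℓ ^ 3 * (C * ε) := by
      have h1 := hR3 _ hgz
      have h2 : (ℓ : ℝ) ^ 2 * max (ℓ * (C * ε)) (q * ‖z'‖) =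
          max (ℓ ^ 3 * (C * ε)) (ℓ ^ 2 * (q * ‖z'‖)) := by
        rw [mul_max_of_nonneg _ _ (by positivity)]
        congr 1
        ring
      rw [h2] at h1
      rcases le_max_iff.1 h1 with h3 | h3
      · exact h3
      · have h4 : ‖z'‖ ≤ 0 := by
          by_contra hne
          push Not at hne
          have h5 : (ℓ : ℝ) ^ 2 * q < 1 := by
            have : (ℓ : ℝ) ^ 2 < ℓ ^ 3 := by
              rw [pow_succ _ 2]
              exact lt_mul_of_one_lt_right (by positivity) hl1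
            nlinarith
          have h6 : (ℓ : ℝ) ^ 2 * (q * ‖z'‖) < ‖z'‖ := by
            rw [← mul_assoc]
            exact mul_lt_of_lt_one_left hne h5
          exact absurd h3 (not_le.2 h6)
        exact h4.trans (by positivity)
    -- conclusion
    have hxd : x = (x - z) + (((z' : PadicAlgCl ℓ) : ℂ_[ℓ]) + ((R z : PadicAlgCl ℓ) : ℂ_[ℓ])) := by
      have h1 : ((z' : PadicAlgCl ℓ) : ℂ_[ℓ]) = (z : ℂ_[ℓ]) - ((R z : PadicAlgCl ℓ) : ℂ_[ℓ]) :=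
        map_sub (algebraMap (PadicAlgCl ℓ) ℂ_[ℓ]) _ _
      rw [h1]
      ring
    rw [hxd]
    refine (norm_add_le _ _).trans ?_
    refine (add_le_add hxz (norm_add_le _ _)).trans ?_
    rw [PadicComplex.norm_extends, PadicComplex.norm_extends]
    refine (add_le_add le_rfl (add_le_add hz'1 hRz)).trans ?_
    rw [hB]
    have h7 : (ℓ : ℝ) * (C * ε) / δ = C * (ℓ / δ) * ε := by ring
    rw [h7]
    apply le_of_eq
    ring
  by_contra hne
  have h1 : 0 < ‖x‖ := norm_pos_iff.2 hne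
  have h2 := key (‖x‖ / (2 * B)) (by positivity)
  have h3 : B * (‖x‖ / (2 * B)) = ‖x‖ / 2 := by field_simp
  rw [h3] at h2
  linarith

end Pool.Agent.L7h62.HT
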