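import Pool.Agent.L7h62.HT.Sb

set_option autoImplicit false

/-!
# Tate's theorem for subgroups of finite index
-/

namespace Pool.Agent.L7h62.HT

open Pool.Agent.W292.FM

variable (ℓ : ℕ) [hℓ : Fact ℓ.Prime]

theorem chiC_mul (g h : GLo ℓ) : chiC ℓ (g * h) = chiC ℓ g * chiC ℓ h := by
  unfold chiC chiQ
  rw [map_mul, Units.val_mul, PadicInt.coe_mul, map_mul]

theorem chiC_one : chiC ℓ 1 = 1 := by
  unfold chiC chiQ
  rw [map_one, Units.val_one, PadicInt.coe_one, map_one]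

theorem s_T0F (hT : S_T0 ℓ) : S_T0F ℓ := by
  classical
  intro H hH m hm x hx
  by_contra hx0
  let _ : Fintype (GLo ℓ ⧸ H) := Fintype.ofFinite _
  set φ : GLo ℓ → ℂ_[ℓ] := fun a => chiC ℓ a ^ (-m) * cpMap ℓ a x with hφ
  have h1 : ∀ a h, h ∈ H → φ (a * h) = φ a := by
    intro a h hh
    rw [hφ]
    simp only
    rw [chiC_mul, cpMap_mul, hx h hh, map_mul, cpMap_zpow, cpMap_chiC, mul_zpow]
    have h2 : chiC ℓ h ^ (-m) * chiC ℓ h ^ m = 1 := by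
      rw [← zpow_add₀ (chiC_ne_zero ℓ h), neg_add_cancel, zpow_zero]
    calc chiC ℓ a ^ (-m) * chiC ℓ h ^ (-m) * (chiC ℓ h ^ m * cpMap ℓ a x)
        = chiC ℓ a ^ (-m) * (chiC ℓ h ^ (-m) * chiC ℓ h ^ m) * cpMap ℓ a x := by ring
      _ = _ := by rw [h2, mul_one]
  have h2 : ∀ a b : GLo ℓ, (a : GLo ℓ ⧸ H) = b → φ a = φ b := by
    intro a b hab
    rw [QuotientGroup.eq] at hab
    have h3 := h1 a _ hab
    rw [mul_inv_cancel_left] at h3
    exact h3.symm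
  have h3 : ∀ g a, cpMap ℓ g (φ a) = chiC ℓ g ^ m * φ (g * a) := by
    intro g a
    rw [hφ]
    simp only
    rw [map_mul, cpMap_zpow, cpMap_chiC, chiC_mul, cpMap_mul, mul_zpow]
    have h4 : chiC ℓ g ^ m * chiC ℓ g ^ (-m) = 1 := by
      rw [← zpow_add₀ (chiC_ne_zero ℓ g), add_neg_cancel, zpow_zero]
    calc chiC ℓ a ^ (-m) * cpMap ℓ g (cpMap ℓ a x)
        = (chiC ℓ g ^ m * chiC ℓ g ^ (-m)) * (chiC ℓ a ^ (-m) * cpMap ℓ g (cpMap ℓ a x)) := by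
          rw [h4, one_mul]
      _ = _ := by ring
  set y : ℂ_[ℓ] := ∏ q : GLo ℓ ⧸ H, φ q.out with hy
  have hy0 : y ≠ 0 := by
    refine Finset.prod_ne_zero_iff.2 fun q _ => mul_ne_zero (zpow_ne_zero _ (chiC_ne_zero ℓ _)) ?_
    exact (map_ne_zero_iff _ (cpMap ℓ _).injective).2 hx0
  have hd : Fintype.card (GLo ℓ ⧸ H) ≠ 0 := Fintype.card_ne_zero
  refine hy0 (hT (m * Fintype.card (GLo ℓ ⧸ H)) (mul_ne_zero hm (by exact_mod_cast hd)) y
    fun g => ?_)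
  rw [hy, map_prod]
  have h4 : ∀ q : GLo ℓ ⧸ H, cpMap ℓ g (φ q.out) = chiC ℓ g ^ m * φ (g • q).out := by
    intro q
    rw [h3]
    congr 1
    apply h2
    rw [QuotientGroup.out_eq']
    conv_rhs => rw [← QuotientGroup.out_eq' q]
    rfl
  rw [Finset.prod_congr rfl fun q _ => h4 q, Finset.prod_mul_distrib, Finset.prod_const,
    Finset.card_univ, _root_.zpow_mul, zpow_natCast]
  congr 1
  exact Equiv.prod_comp (MulAction.toPerm g) fun q : GLo ℓ ⧸ H => φ q.out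

end Pool.Agent.L7h62.HT
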