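import Pool.Agent.L7h62.HT.Sb
import Pool.Agent.L7h62.HT.Pl

set_option autoImplicit false
set_option linter.unusedSectionVars false

/-!
# The sum of the Hodge–Tate weights of a stable subspace
-/

namespace Pool.Agent.L7h62.HT

open Pool.Agent.W292.FM Pool.Agent.W569.FM Pool.Agent.Y115.Chi Pool.Agent.Y115.R Module Matrix
open Pool.Agent.Y115.T Pool.Agent.Y115.CQ

variable (ℓ : ℕ) [hℓ : Fact ℓ.Prime]

section emb

variable {F : Type} [Field F] [NumberField F]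

theorem exists_lift {k : Type} [Field k] (τ : k →+* PadicAlgCl ℓ) :
    ∃ e : AlgebraicClosure k →+* PadicAlgCl ℓ, ∀ x, e (algebraMap k _ x) = τ x := by
  let i1 : Algebra k (PadicAlgCl ℓ) := τ.toAlgebra
  let e : AlgebraicClosure k →ₐ[k] PadicAlgCl ℓ := IsAlgClosed.lift
  exact ⟨e, fun x => e.commutes x⟩

theorem exists_gal {k : Type} [Field k] (e₀ e' : AlgebraicClosure k →+* PadicAlgCl ℓ)
    (h : ∀ x, e₀ (algebraMap k _ x) = e' (algebraMap k _ x)) :
    ∃ g : GF k, ∀ x, e₀ (g x) = e' x := by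
  let i2 : Algebra k (PadicAlgCl ℓ) := (e'.comp (algebraMap k _)).toAlgebra
  let i3 : Algebra (AlgebraicClosure k) (PadicAlgCl ℓ) := e₀.toAlgebra
  have h3 : IsScalarTower k (AlgebraicClosure k) (PadicAlgCl ℓ) :=
    IsScalarTower.of_algebraMap_eq fun x => (h x).symm
  let e'' : AlgebraicClosure k →ₐ[k] PadicAlgCl ℓ := { e' with commutes' := fun x => rfl }
  refine ⟨e''.restrictNormal' (AlgebraicClosure k), fun x => ?_⟩
  exact AlgHom.restrictNormal_commutes e'' (AlgebraicClosure k) x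

/-- every embedding of `F` is a conjugate of the chosen one -/
theorem exists_conj (e₀ : AlgebraicClosure ℚ →+* PadicAlgCl ℓ) (τ : F →+* PadicAlgCl ℓ) :
    ∃ g : GF ℚ, ∀ x, e₀ (g (jj F x)) = τ x := by
  obtain ⟨e, he⟩ := exists_lift ℓ τ
  obtain ⟨g, hg⟩ := exists_gal ℓ e₀
    (e.comp ((ee F).symm : AlgebraicClosure ℚ →+* AlgebraicClosure F)) (fun x => by
      have h1 : e₀.comp (algebraMap ℚ _) =
        (e.comp ((ee F).symm : AlgebraicClosure ℚ →+* AlgebraicClosure F)).comp (algebraMap ℚ _) :=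
        Subsingleton.elim _ _
      exact DFunLike.congr_fun h1 x)
  refine ⟨g, fun x => ?_⟩
  rw [hg, ← he]
  show e ((ee F).symm (ee F (algebraMap F _ x))) = _
  rw [RingEquiv.symm_apply_apply]

/-- the embedding attached to a coset -/
noncomputable def eq' (e₀ : AlgebraicClosure ℚ →+* PadicAlgCl ℓ) (q : GF ℚ ⧸ HH F) :
    AlgebraicClosure F →+* PadicAlgCl ℓ :=
  e₀.comp (((q.out : AlgebraicClosure ℚ ≃+* AlgebraicClosure ℚ) :
    AlgebraicClosure ℚ →+* AlgebraicClosure ℚ).comp (ee F : AlgebraicClosure F →+* AlgebraicClosure ℚ))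

theorem eq'_apply (e₀ : AlgebraicClosure ℚ →+* PadicAlgCl ℓ) (q : GF ℚ ⧸ HH F)
    (x : AlgebraicClosure F) : eq' ℓ e₀ q x = e₀ (q.out (ee F x)) := rfl

theorem bijective_eq' (e₀ : AlgebraicClosure ℚ →+* PadicAlgCl ℓ) :
    Function.Bijective fun q : GF ℚ ⧸ HH F =>
      (eq' ℓ e₀ q).comp (algebraMap F (AlgebraicClosure F)) := by
  constructor
  · intro a b hab
    have h1 : ∀ x, e₀ (a.out (jj F x)) = e₀ (b.out (jj F x)) := fun x => DFunLike.congr_fun hab x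
    rw [← QuotientGroup.out_eq' a, ← QuotientGroup.out_eq' b, QuotientGroup.eq]
    intro x
    show a.out.symm (b.out (jj F x)) = _
    rw [← e₀.injective (h1 x), AlgEquiv.symm_apply_apply]
  · intro τ
    obtain ⟨g, hg⟩ := exists_conj ℓ e₀ τ
    refine ⟨(g : GF ℚ ⧸ HH F), ?_⟩
    apply RingHom.ext
    intro x
    show e₀ (((g : GF ℚ ⧸ HH F).out) (jj F x)) = τ x
    obtain ⟨h, hh⟩ := QuotientGroup.mk_out_eq_mul (HH F) g
    rw [hh]
    show e₀ (g (h.1 (jj F x))) = τ x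
    rw [h.2 x, hg]

end emb

variable {F : Type} [Field F] [NumberField F]

/-- an isotropic type of size `k` -/
def IsoType (M : (F →+* PadicAlgCl ℓ) → Multiset ℤ) (w : ℤ) (k : ℕ) : Prop :=
  ∃ H : (F →+* PadicAlgCl ℓ) → Multiset ℤ,
    (∀ τ, Multiset.card (H τ) = k ∧ H τ + (H τ).map (fun h => w - h) ≤ M τ) ∧
      2 * ∑ τ, (H τ).sum = w * k * finrank ℚ F

variable {K : Type} [NormedField K] [NormedAlgebra ℚ_[ℓ] K] [FiniteDimensional ℚ_[ℓ] K]
  [CompleteSpace K] [IsUltrametricDist K] [CharZero K]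

theorem iso_type (hS : S_SUB) (hT : S_T0F ℓ) {n : ℕ} (ρ : GF F →* GL (Fin n) K)
    (c : K →ₐ[ℚ_[ℓ]] ℂ_[ℓ]) (M : (F →+* PadicAlgCl ℓ) → Multiset ℤ)
    (hM : ∀ e : AlgebraicClosure F →+* PadicAlgCl ℓ,
      HTat ℓ ρ e c (M (e.comp (algebraMap F (AlgebraicClosure F)))))
    (W : Submodule K (Fin n → K)) (hW : ∀ g, W ≤ W.comap (act ρ g)) (w : ℤ)
    (N : ℕ) (a : ℤ) (hN : 0 < N) (ha : 2 * a = -(w * finrank K W * finrank ℚ F * N))
    (hθ : ∀ g, MonoidHom.transfer ((dt ρ W hW).comp (cc F)) g ^ N = chiE ℓ K g ^ a)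
    (J : Matrix (Fin n) (Fin n) K) (hJ : J.det ≠ 0)
    (hJρ : ∀ σ, ((ρ σ : GL (Fin n) K) : Matrix (Fin n) (Fin n) K)ᵀ * J *
          ((ρ σ : GL (Fin n) K) : Matrix (Fin n) (Fin n) K) =
            (algebraMap ℚ_[ℓ] K (((chi F ℓ σ : ℤ_[ℓ]ˣ) : ℤ_[ℓ]) : ℚ_[ℓ])) ^ (-w) • J)
    (hJW : ∀ x ∈ W, ∀ y ∈ W, x ⬝ᵥ J *ᵥ y = 0) : IsoType ℓ M w (finrank K W) := by
  classical
  let _ : Fintype (GF ℚ ⧸ HH F) := Fintype.ofFinite _
  obtain ⟨e₀, -⟩ := exists_lift ℓ (algebraMap ℚ (PadicAlgCl ℓ))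
  obtain ⟨r, hr⟩ := exists_resQ ℓ e₀
  have h1 := fun q : GF ℚ ⧸ HH F => sub_det ℓ hS hT ρ (eq' ℓ e₀ q) c _ (hM _) W hW
  choose H hcard hy hiso using h1
  choose y hy0 hy using hy
  -- the group
  set D : Subgroup (GLo ℓ) := fixC ℓ c ⊓ (HH F).normalCore.comap r with hD
  have hDfin : D.FiniteIndex := by
    have h2 : ((HH F).normalCore.comap r).FiniteIndex := by
      refine finiteIndex_of_map _ (fun g => ((r g : GF ℚ) : GF ℚ ⧸ (HH F).normalCore))
        fun a b hab => ?_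
      rw [QuotientGroup.eq] at hab
      rw [Subgroup.mem_comap, map_mul, map_inv]
      exact hab
    have h3 := finiteIndex_fixC ℓ c
    exact inferInstance
  set S : ℤ := ∑ q, (H q).sum with hS'
  set Y : ℂ_[ℓ] := ∏ q, y q with hY
  have hY0 : Y ≠ 0 := Finset.prod_ne_zero_iff.2 fun q _ => hy0 q
  set θ : GF ℚ →* Kˣ := MonoidHom.transfer ((dt ρ W hW).comp (cc F)) with hθ'
  have key : ∀ g ∈ D, c (θ (r g) : K) * cpMap ℓ g Y = chiC ℓ g ^ (-S) * Y := by
    intro g hg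
    have hcore : r g ∈ (HH F).normalCore := hg.2
    rw [hθ', transfer_core _ hcore, Units.coe_prod, map_prod, hY, map_prod,
      ← Finset.prod_mul_distrib]
    have h2 : ∀ q : GF ℚ ⧸ HH F, c ((((dt ρ W hW).comp (cc F))
        ⟨q.out⁻¹ * r g * q.out, core_conj hcore q.out⟩ : Kˣ) : K) * cpMap ℓ g (y q) =
          chiC ℓ g ^ (-(H q).sum) * y q := by
      intro q
      refine hy q g (cc F ⟨q.out⁻¹ * r g * q.out, core_conj hcore q.out⟩) (fun x => ?_) hg.1
      rw [eq'_apply, eq'_apply, ee_cc, hr]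
      show e₀ (r g (q.out (ee F x))) = e₀ (q.out (q.out.symm (r g (q.out (ee F x)))))
      rw [AlgEquiv.apply_symm_apply]
    rw [Finset.prod_congr rfl fun q _ => h2 q, Finset.prod_mul_distrib]
    congr 1
    have h3 : ∀ s : Finset (GF ℚ ⧸ HH F), ∏ q ∈ s, chiC ℓ g ^ (-(H q).sum) =
        chiC ℓ g ^ (-(∑ q ∈ s, (H q).sum)) := by
      intro s
      induction s using Finset.induction_on with
      | empty => simp
      | insert q s hq ih =>
        rw [Finset.prod_insert hq, Finset.sum_insert hq, ih, neg_add,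
          zpow_add₀ (chiC_ne_zero ℓ g)]
    exact h3 Finset.univ
  have hchi : ∀ g ∈ D, c (θ (r g) : K) ^ N = chiC ℓ g ^ a := by
    intro g hg
    have h2 := congrArg (fun u : Kˣ => c (u : K)) (hθ (r g))
    simp only [Units.val_pow_eq_pow_val, Units.val_zpow_eq_zpow_val, map_pow, map_zpow₀] at h2
    rw [h2, coe_chiE, c.commutes, ← chiQ_compat ℓ e₀ g (r g) (hr g)]
    rfl
  have haS : a = -(N * S) := by
    by_contra hne
    have hm : -(N * S) - a ≠ 0 := by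
      intro h
      exact hne (by linarith)
    have h2 := hT D hDfin _ hm (Y ^ N) (fun g hg => by
      have h3 := congrArg (fun z => z ^ N) (key g hg)
      simp only [mul_pow] at h3
      rw [hchi g hg, ← map_pow, ← zpow_natCast (chiC ℓ g ^ (-S)), ← _root_.zpow_mul] at h3
      have h4 : chiC ℓ g ^ a ≠ 0 := zpow_ne_zero _ (chiC_ne_zero ℓ g)
      apply mul_left_cancel₀ h4
      rw [h3, ← mul_assoc, ← zpow_add₀ (chiC_ne_zero ℓ g)]
      congr 2
      ring)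
    exact hY0 (pow_eq_zero_iff hN.ne' |>.1 h2)
  have hsum : 2 * S = w * finrank K W * finrank ℚ F := by
    have hN0 : (N : ℤ) ≠ 0 := by exact_mod_cast hN.ne'
    apply mul_left_cancel₀ hN0
    rw [haS] at ha
    linarith
  -- reindexing
  let φ : (GF ℚ ⧸ HH F) ≃ (F →+* PadicAlgCl ℓ) := Equiv.ofBijective _ (bijective_eq' ℓ e₀)
  refine ⟨fun τ => H (φ.symm τ), fun τ => ⟨hcard _, ?_⟩, ?_⟩
  · have h2 := hiso (φ.symm τ) J w hJ hJρ hJW
    have h3 : (eq' ℓ e₀ (φ.symm τ)).comp (algebraMap F (AlgebraicClosure F)) = τ :=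
      φ.apply_symm_apply τ
    rw [h3] at h2
    exact h2
  · rw [← hsum, hS']
    congr 1
    exact Equiv.sum_comp φ.symm fun q => (H q).sum

end Pool.Agent.L7h62.HT
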